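import Pool.Agent.H804.US.SDefs
import Pool.Agent.H804.OP.Low

/-!
# Closed geodesics of the round sphere have length at least `2 π`
-/

open Real Set MeasureTheory Filter Topology Quaternion
open scoped ContDiff RealInnerProductSpace
open H738CP H804OP

namespace H804US.Low

theorem sphere_low {E : Type} [NormedAddCommGroup E] [NormedSpace ℝ E] {r N : ℝ → ℝ} {z : ℝ → E}
    {v T : ℝ} (hv : 0 < v) (hT : 0 < T) (hr : ContDiff ℝ 2 r) (hz : ContDiff ℝ 2 z)
    (hz0 : ∀ t, z t ≠ 0)
    (h1 : ∀ t, deriv (deriv r) t = Real.sin (r t) * Real.cos (r t) * N t)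
    (h2 : ∀ t, (Real.sin (r t) ^ 2) • (deriv (deriv z) t + N t • z t) +
      (2 * Real.sin (r t) * Real.cos (r t) * deriv r t) • deriv z t = 0)
    (h3 : ∀ t, deriv r t ^ 2 + Real.sin (r t) ^ 2 * N t = v ^ 2)
    (hper1 : ∀ t, Real.sin (r (t + T)) • z (t + T) = Real.sin (r t) • z t)
    (hper2 : ∀ t, Real.cos (r (t + T)) = Real.cos (r t)) : 2 * π ≤ v * T := by
  by_contra hlt
  push Not at hlt
  have hrd : ContDiff ℝ 1 (deriv r) := (contDiff_succ_iff_deriv.1 (by exact_mod_cast hr)).2.2
  have hzd : ContDiff ℝ 1 (deriv z) := (contDiff_succ_iff_deriv.1 (by exact_mod_cast hz)).2.2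
  have r1 : ∀ t, HasDerivAt r (deriv r t) t := fun t =>
    (hr.differentiable (by norm_num)).differentiableAt.hasDerivAt
  have r2 : ∀ t, HasDerivAt (deriv r) (deriv (deriv r) t) t := fun t =>
    (hrd.differentiable (by norm_num)).differentiableAt.hasDerivAt
  have z1 : ∀ t, HasDerivAt z (deriv z t) t := fun t =>
    (hz.differentiable (by norm_num)).differentiableAt.hasDerivAt
  have z2 : ∀ t, HasDerivAt (deriv z) (deriv (deriv z) t) t := fun t =>
    (hzd.differentiable (by norm_num)).differentiableAt.hasDerivAt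
  have hrc : Continuous r := hr.continuous
  have hr1c : Continuous (deriv r) := hrd.continuous
  have hr2c : Continuous (deriv (deriv r)) := hrd.continuous_deriv (by norm_num)
  have hzc : Continuous z := hz.continuous
  have hz1c : Continuous (deriv z) := hzd.continuous
  have hz2c : Continuous (deriv (deriv z)) := hzd.continuous_deriv (by norm_num)
  have s1 : ∀ t, HasDerivAt (fun t => Real.sin (r t)) (Real.cos (r t) * deriv r t) t := fun t =>
    (r1 t).sin
  have c1 : ∀ t, HasDerivAt (fun t => Real.cos (r t)) (-Real.sin (r t) * deriv r t) t := fun t =>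
    (r1 t).cos
  -- the last coordinate
  have a2 : ∀ t, HasDerivAt (fun t => -Real.sin (r t) * deriv r t) (-(v ^ 2) • Real.cos (r t)) t := by
    intro t
    refine (((s1 t).neg).mul (r2 t)).congr_deriv ?_
    rw [h1, ← h3 t, smul_eq_mul]
    simp only [Pi.neg_apply]
    ring
  have hcos := Low.per hv hT hlt c1 a2 hper2
  -- the others
  have b1 : ∀ t, HasDerivAt (fun t => Real.sin (r t) • z t)
      ((Real.cos (r t) * deriv r t) • z t + Real.sin (r t) • deriv z t) t := by
    intro t
    refine ((s1 t).smul (z1 t)).congr_deriv ?_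
    rw [add_comm]
  have b2 : ∀ t, HasDerivAt (fun t => (Real.cos (r t) * deriv r t) • z t + Real.sin (r t) • deriv z t)
      ((-Real.sin (r t) * deriv r t ^ 2 + Real.cos (r t) * deriv (deriv r) t) • z t +
        (2 * Real.cos (r t) * deriv r t) • deriv z t + Real.sin (r t) • deriv (deriv z) t) t := by
    intro t
    refine ((((c1 t).mul (r2 t)).smul (z1 t)).add ((s1 t).smul (z2 t))).congr_deriv ?_
    simp only [Pi.mul_apply]
    module
  have hW : ∀ t, ((-Real.sin (r t) * deriv r t ^ 2 + Real.cos (r t) * deriv (deriv r) t) • z t +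
        (2 * Real.cos (r t) * deriv r t) • deriv z t + Real.sin (r t) • deriv (deriv z) t) +
        v ^ 2 • (Real.sin (r t) • z t) = 0 := by
    intro t
    refine HL.iso (F := fun t => Real.sin (r t)) (X := fun t =>
      ((-Real.sin (r t) * deriv r t ^ 2 + Real.cos (r t) * deriv (deriv r) t) • z t +
        (2 * Real.cos (r t) * deriv r t) • deriv z t + Real.sin (r t) • deriv (deriv z) t) +
        v ^ 2 • (Real.sin (r t) • z t)) (s1 t) (by fun_prop) ?_ ?_
    · intro t
      have e2 := h2 t
      have e3 := h3 t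
      have e4 := Real.sin_sq_add_cos_sq (r t)
      set s := Real.sin (r t)
      set c := Real.cos (r t)
      rw [h1 t]
      have e5 : s • ((((-s * deriv r t ^ 2 + c * (s * c * N t)) • z t +
        (2 * c * deriv r t) • deriv z t + s • deriv (deriv z) t)) + v ^ 2 • (s • z t)) =
        ((s ^ 2) • (deriv (deriv z) t + N t • z t) + (2 * s * c * deriv r t) • deriv z t) +
          (s ^ 2 * (v ^ 2 - (deriv r t ^ 2 + s ^ 2 * N t) + N t * (s ^ 2 + c ^ 2 - 1))) • z t := by
        module
      rw [e5, e2, e3, e4]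
      simp
    · intro k1 k2
      exfalso
      have k3 := Real.sin_sq_add_cos_sq (r t)
      have k4 := h3 t
      rw [k1] at k3 k4
      have k5 : Real.cos (r t) ≠ 0 := by
        intro h
        rw [h] at k3
        norm_num at k3
      have k6 : deriv r t = 0 := (mul_eq_zero.1 k2).resolve_left k5
      rw [k6] at k4
      have : 0 < v ^ 2 := by positivity
      norm_num at k4
      linarith
  have b3 : ∀ t, HasDerivAt (fun t => (Real.cos (r t) * deriv r t) • z t + Real.sin (r t) • deriv z t)
      (-(v ^ 2) • (Real.sin (r t) • z t)) t := by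
    intro t
    refine (b2 t).congr_deriv ?_
    have := hW t
    rw [neg_smul]
    exact eq_neg_of_add_eq_zero_left this
  have hsin := Low.per hv hT hlt b1 b3 hper1
  have k1 := hcos 0
  have k2 := hsin 0
  have k3 := (smul_eq_zero.1 k2).resolve_right (hz0 0)
  have k4 := Real.sin_sq_add_cos_sq (r 0)
  rw [k1, k3] at k4
  norm_num at k4

theorem low_US {n : ℕ} {v T : ℝ} (hv : 0 < v) (hT : 0 < T)
    {γ : ℝ → EuclideanSpace ℂ (Fin n) × ℝ} (hγ : IsGeodesicUS π Real.sin Real.sin v γ)
    (hper : ∀ t, γ (t + T) = γ t) : 2 * π ≤ v * T := by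
  obtain ⟨r, z, hr, hz, hz1, hpt, e1, ⟨P, e2⟩, e3, e4⟩ := hγ
  have hpi := Real.pi_pos.ne'
  have hzd : ∀ t, HasDerivAt z (deriv z t) t := fun t => (hz.differentiable (by norm_num) t).hasDerivAt
  have hrd : ∀ t, HasDerivAt r (deriv r t) t := fun t => (hr.differentiable (by norm_num) t).hasDerivAt
  have hdz : ContDiff ℝ 1 (deriv z) := (contDiff_succ_iff_deriv.1 (by exact_mod_cast hz)).2.2
  have hhop : ∀ t, DifferentiableAt ℝ (hopf z) t := by
    intro t
    have hd : DifferentiableAt ℝ (deriv z) t := (hdz.differentiable one_ne_zero) t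
    have hi : DifferentiableAt ℝ (fun s => (inner ℂ (z s) (deriv z s) : ℂ)) t :=
      (hzd t).differentiableAt.inner ℂ hd
    exact (Complex.imCLM.differentiableAt).comp t hi
  have hhopc : ∀ t, HasDerivAt (fun s => ((hopf z s : ℂ) * Complex.I))
      (((deriv (hopf z) t : ℝ) : ℂ) * Complex.I) t := by
    intro t
    exact ((hhop t).hasDerivAt.ofReal_comp).mul_const _
  have hhor : ∀ t, HasDerivAt (hor z) (deriv (hor z) t) t := by
    intro t
    have hd : DifferentiableAt ℝ (deriv z) t := (hdz.differentiable one_ne_zero) t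
    have : DifferentiableAt ℝ (fun s => deriv z s - ((hopf z s : ℂ) * Complex.I) • z s) t :=
      hd.sub ((hhopc t).differentiableAt.smul (hzd t).differentiableAt)
    exact this.hasDerivAt
  have hsplit : deriv z = fun t => hor z t + ((hopf z t : ℂ) * Complex.I) • z t := by
    funext t
    unfold hor
    rw [sub_add_cancel]
  have hdd : ∀ t, deriv (deriv z) t = deriv (hor z) t + (((hopf z t : ℂ) * Complex.I) • deriv z t +
      (((deriv (hopf z) t : ℝ) : ℂ) * Complex.I) • z t) := by
    intro t
    conv_lhs => rw [hsplit]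
    exact ((hhor t).add ((hhopc t).smul (hzd t))).deriv
  have hP : ∀ t, Real.sin (r t) ^ 2 * deriv (hopf z) t +
      2 * Real.sin (r t) * Real.cos (r t) * deriv r t * hopf z t = 0 := by
    intro t
    have g1 := (((hrd t).sin).pow 2).mul (hhop t).hasDerivAt
    have g2 : (fun t => Real.sin (r t)) ^ 2 * hopf z = fun _ => P := funext e2
    rw [g2] at g1
    have g3 := g1.unique (hasDerivAt_const t P)
    simp only [Pi.pow_apply] at g3
    norm_num at g3
    linarith
  refine sphere_low (N := fun t => hopf z t ^ 2 + ‖hor z t‖ ^ 2) hv hT hr hz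
    (fun t h0 => ?_) (fun t => ?_) (fun t => ?_) (fun t => ?_) (fun t => ?_) (fun t => ?_)
  · have := hz1 t
    rw [h0] at this
    simp at this
  · rw [e1, Real.deriv_sin]
    ring
  · have h3 := e3 t
    rw [Real.deriv_sin] at h3
    have hPt := hP t
    have h0 := congrFun hsplit t
    rw [hdd t]
    ext j
    have h3j := congrArg (fun w : EuclideanSpace ℂ (Fin n) => w j) h3
    have h0j := congrArg (fun w : EuclideanSpace ℂ (Fin n) => w j) h0
    simp only [PiLp.add_apply, PiLp.smul_apply, smul_eq_mul, PiLp.zero_apply,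
      Complex.real_smul] at h3j h0j ⊢
    rw [h0j]
    have hPc : ((Real.sin (r t) : ℝ) : ℂ) ^ 2 * ((deriv (hopf z) t : ℝ) : ℂ) +
      2 * ((Real.sin (r t) : ℝ) : ℂ) * ((Real.cos (r t) : ℝ) : ℂ) * ((deriv r t : ℝ) : ℂ) *
        ((hopf z t : ℝ) : ℂ) = 0 := by
      exact_mod_cast hPt
    push_cast at h3j hPc ⊢
    linear_combination h3j + Complex.I * z t j * hPc +
      Complex.sin (r t) ^ 2 * (hopf z t : ℂ) ^ 2 * z t j * Complex.I_sq
  · have := e4 t
    linear_combination this
  · have h1 := hper t
    rw [hpt, hpt] at h1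
    unfold spt at h1
    have h2 := congrArg Prod.fst h1
    simp only at h2
    rw [mul_div_cancel_left₀ _ hpi, mul_div_cancel_left₀ _ hpi] at h2
    have hs : ∀ (c : ℝ) (w : EuclideanSpace ℂ (Fin n)), c • w = (c : ℂ) • w := by
      intro c w
      ext j
      simp
    rw [hs, hs]
    exact h2
  · have h1 := hper t
    rw [hpt, hpt] at h1
    unfold spt at h1
    have h3 := congrArg Prod.snd h1
    simp only at h3
    rw [mul_div_cancel_left₀ _ hpi, mul_div_cancel_left₀ _ hpi] at h3
    exact h3

attribute [local instance] HL.starModule_quat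

theorem low_HS {n : ℕ} {v T : ℝ} (hv : 0 < v) (hT : 0 < T)
    {γ : ℝ → (Fin n → ℍ[ℝ]) × ℝ} (hγ : IsGeodesicHS π Real.sin Real.sin v γ)
    (hper : ∀ t, γ (t + T) = γ t) : 2 * π ≤ v * T := by
  obtain ⟨r, z, hr, hz, hn, hγ', h1, ⟨P, h2⟩, h3, h4⟩ := hγ
  -- basic derivatives
  have hr1 : ∀ t, HasDerivAt r (deriv r t) t := fun t =>
    (hr.differentiable (by norm_num)).differentiableAt.hasDerivAt
  have hrd : ContDiff ℝ 1 (deriv r) := (contDiff_succ_iff_deriv.1 (by exact_mod_cast hr)).2.2
  have hr2 : ∀ t, HasDerivAt (deriv r) (deriv (deriv r) t) t := fun t =>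
    (hrd.differentiable (by norm_num)).differentiableAt.hasDerivAt
  have hz1 : ∀ t, HasDerivAt z (deriv z t) t := fun t =>
    (hz.differentiable (by norm_num)).differentiableAt.hasDerivAt
  have hzd : ContDiff ℝ 1 (deriv z) := (contDiff_succ_iff_deriv.1 (by exact_mod_cast hz)).2.2
  have hz2 : ∀ t, HasDerivAt (deriv z) (deriv (deriv z) t) t := fun t =>
    (hzd.differentiable (by norm_num)).differentiableAt.hasDerivAt
  have hzc0 : Continuous z := hz.continuous
  have hzc1 : Continuous (deriv z) := hzd.continuous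
  have hzc2 : Continuous (deriv (deriv z)) := (contDiff_one_iff_deriv.1 hzd).2
  have hz1' : ∀ i t, HasDerivAt (fun t => z t i) (deriv z t i) t := fun i t =>
    (hasDerivAt_pi.1 (hz1 t)) i
  have hz2' : ∀ i t, HasDerivAt (fun t => deriv z t i) (deriv (deriv z) t i) t := fun i t =>
    (hasDerivAt_pi.1 (hz2 t)) i
  have hci0 : ∀ i, Continuous (fun t => z t i) := fun i => (continuous_apply i).comp hzc0
  have hci1 : ∀ i, Continuous (fun t => deriv z t i) := fun i => (continuous_apply i).comp hzc1
  have hci2 : ∀ i, Continuous (fun t => deriv (deriv z) t i) := fun i =>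
    (continuous_apply i).comp hzc2
  -- norm squares
  have hns : ∀ y : ℍ[ℝ], star y * y = (‖y‖ ^ 2) • (1 : ℍ[ℝ]) := by
    intro y
    rw [Quaternion.star_mul_self, Quaternion.normSq_eq_norm_mul_self, pow_two]
    ext <;> simp
  have hqn : ∀ y : Fin n → ℍ[ℝ], qdot y y = nsq y • (1 : ℍ[ℝ]) := by
    intro y
    unfold qdot nsq
    rw [Finset.sum_smul]
    exact Finset.sum_congr rfl fun i _ => hns _
  have hzz : ∀ t, qdot (z t) (z t) = 1 := by
    intro t
    rw [hqn, hn, one_smul]
  -- the vertical part is purely imaginary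
  have hstar : ∀ t, star (qdot (z t) (deriv z t)) = -qdot (z t) (deriv z t) := by
    intro t
    have h5 : HasDerivAt (fun t => qdot (z t) (z t))
        (∑ i, (star (deriv z t i) * z t i + star (z t i) * deriv z t i)) t := by
      unfold qdot
      exact HasDerivAt.fun_sum fun i _ => ((hz1' i t).star).mul (hz1' i t)
    have h6 : HasDerivAt (fun t => qdot (z t) (z t)) 0 t := by
      rw [show (fun t => qdot (z t) (z t)) = fun _ => (1 : ℍ[ℝ]) from funext hzz]
      exact hasDerivAt_const t 1
    have h7 := h5.unique h6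
    rw [Finset.sum_add_distrib] at h7
    have h8 : star (qdot (z t) (deriv z t)) = ∑ i, star (deriv z t i) * z t i := by
      unfold qdot
      rw [star_sum]
      exact Finset.sum_congr rfl fun i _ => by rw [star_mul, star_star]
    rw [h8]
    exact eq_neg_of_add_eq_zero_left h7
  have hb0 : ∀ t, qvert z t = qdot (z t) (deriv z t) := by
    intro t
    have h5 := congrArg (fun q : ℍ[ℝ] => q.re) (hstar t)
    have h6 : (qdot (z t) (deriv z t)).re = 0 := by
      simp at h5
      linarith
    unfold qvert
    ext <;> simp [h6]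
  have hbs : ∀ t, star (qvert z t) = -qvert z t := by
    intro t
    rw [hb0 t, hstar t]
  have hbb : ∀ t, qvert z t * qvert z t = -(‖qvert z t‖ ^ 2) • (1 : ℍ[ℝ]) := by
    intro t
    have h5 := hns (qvert z t)
    rw [hbs t] at h5
    rw [neg_smul, ← h5, neg_mul, neg_neg]
  set b : ℝ → ℍ[ℝ] := qvert z with hb
  have hbe : b = fun t => ∑ i, star (z t i) * deriv z t i := funext fun t => hb0 t
  obtain ⟨b', hb1, hbc'⟩ : ∃ b' : ℝ → ℍ[ℝ], (∀ t, HasDerivAt b (b' t) t) ∧ Continuous b' := by
    refine ⟨fun t => ∑ i, (star (deriv z t i) * deriv z t i + star (z t i) * deriv (deriv z) t i),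
      fun t => ?_, ?_⟩
    · rw [hbe]
      exact HasDerivAt.fun_sum fun i _ => ((hz1' i t).star).mul (hz2' i t)
    · refine continuous_finsetSum _ fun i _ => ?_
      exact (((hci1 i).star).mul (hci1 i)).add (((hci0 i).star).mul (hci2 i))
  have hbc : Continuous b := continuous_iff_continuousAt.2 fun t => (hb1 t).continuousAt
  have hrc : Continuous r := hr.continuous
  have hrc' : Continuous (deriv r) := hrd.continuous
  -- the horizontal part
  have hw1 : ∀ i t, HasDerivAt (fun t => qhor z t i)
      (deriv (deriv z) t i - (deriv z t i * b t + z t i * b' t)) t := fun i t =>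
    (hz2' i t).sub ((hz1' i t).mul (hb1 t))
  have hwd : ∀ i t, deriv (qhor z) t i =
      deriv (deriv z) t i - (deriv z t i * b t + z t i * b' t) := by
    intro i t
    have h5 : HasDerivAt (qhor z)
        (fun i => deriv (deriv z) t i - (deriv z t i * b t + z t i * b' t)) t :=
      hasDerivAt_pi.2 fun i => hw1 i t
    rw [h5.deriv]
  have hw1' : ∀ i t, HasDerivAt (fun t => qhor z t i) (deriv (qhor z) t i) t := by
    intro i t
    rw [hwd i t]
    exact hw1 i t
  have hwc : ∀ i, Continuous (fun t => qhor z t i) := fun i =>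
    continuous_iff_continuousAt.2 fun t => (hw1' i t).continuousAt
  have hwc' : ∀ i, Continuous (fun t => deriv (qhor z) t i) := by
    intro i
    have h5 : (fun t => deriv (qhor z) t i) =
        fun t => deriv (deriv z) t i - (deriv z t i * b t + z t i * b' t) :=
      funext fun t => hwd i t
    rw [h5]
    exact (hci2 i).sub (((hci1 i).mul hbc).add ((hci0 i).mul hbc'))
  have hWc : Continuous (fun t => nsq (qhor z t)) := by
    unfold nsq
    exact continuous_finsetSum _ fun i _ => ((hwc i).norm).pow 2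
  have hzw : ∀ i t, deriv z t i = z t i * b t + qhor z t i := by
    intro i t
    show deriv z t i = z t i * b t + (deriv z t i - z t i * b t)
    abel
  have hpi := Real.pi_pos.ne'
  have hPd : ∀ t, Real.sin (r t) ^ 2 • b' t +
      (2 * Real.sin (r t) * Real.cos (r t) * deriv r t) • b t = 0 := by
    intro t
    have h5 := (((hr1 t).sin).pow 2).smul (hb1 t)
    have h6 : HasDerivAt (fun t => Real.sin (r t) ^ 2 • b t) 0 t := by
      rw [show (fun t => Real.sin (r t) ^ 2 • b t) = fun _ => P from funext h2]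
      exact hasDerivAt_const t P
    have h7 := h5.unique h6
    rw [← h7]
    simp only [Nat.cast_ofNat, Nat.reduceSub, pow_one, Pi.pow_apply]
    module
  refine sphere_low (N := fun t => ‖qvert z t‖ ^ 2 + nsq (qhor z t)) hv hT hr hz
    (fun t h0 => ?_) (fun t => ?_) (fun t => ?_) (fun t => ?_) (fun t => ?_) (fun t => ?_)
  · have := hn t
    rw [h0] at this
    unfold nsq at this
    simp at this
  · rw [h1, Real.deriv_sin]
    ring
  · funext i
    have h5 := h3 t i
    rw [Real.deriv_sin] at h5
    have h6 := hwd i t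
    have h7 := hzw i t
    have A1 : deriv z t i * b t = (-(‖b t‖ ^ 2)) • z t i + qhor z t i * b t := by
      rw [h7, add_mul, mul_assoc, hbb, mul_smul_comm, mul_one]
    have A2 : (Real.sin (r t) ^ 2) • (z t i * b' t) +
        (2 * Real.sin (r t) * Real.cos (r t) * deriv r t) • (z t i * b t) = 0 := by
      have := congrArg (fun q : ℍ[ℝ] => z t i * q) (hPd t)
      simp only [mul_add, mul_smul_comm, mul_zero] at this
      exact this
    have h8 : deriv (deriv z) t i = deriv (qhor z) t i + (deriv z t i * b t + z t i * b' t) := by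
      rw [h6]
      abel
    show (Real.sin (r t) ^ 2) • (deriv (deriv z) t i + (‖b t‖ ^ 2 + nsq (qhor z t)) • z t i) +
      (2 * Real.sin (r t) * Real.cos (r t) * deriv r t) • deriv z t i = 0
    rw [h8, A1, h7]
    linear_combination (norm := module) h5 + A2
  · have := h4 t
    linear_combination this
  · have h5 := hper t
    rw [hγ', hγ'] at h5
    unfold sptH at h5
    have h6 := congrArg Prod.fst h5
    simp only at h6
    rw [mul_div_cancel_left₀ _ hpi, mul_div_cancel_left₀ _ hpi] at h6
    exact h6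
  · have h5 := hper t
    rw [hγ', hγ'] at h5
    unfold sptH at h5
    have h6 := congrArg Prod.snd h5
    simp only at h6
    rw [mul_div_cancel_left₀ _ hpi, mul_div_cancel_left₀ _ hpi] at h6
    exact h6

theorem low_OS {A : Fin 9 → E16 →L[ℝ] E16} {v T : ℝ} (hv : 0 < v) (hT : 0 < T)
    {γ : ℝ → E16 × ℝ} (hγ : IsGeodesicOS A π Real.sin Real.sin v γ)
    (hper : ∀ t, γ (t + T) = γ t) : 2 * π ≤ v * T := by
  obtain ⟨r, z, hr, hz, hz1, hpt, e1, e2, e3⟩ := hγ
  have hpi := Real.pi_pos.ne'
  have hzd : ∀ t, HasDerivAt z (deriv z t) t := fun t => (hz.differentiable (by norm_num) t).hasDerivAt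
  have hrd : ∀ t, HasDerivAt r (deriv r t) t := fun t => (hr.differentiable (by norm_num) t).hasDerivAt
  have hdz : ContDiff ℝ 1 (deriv z) := (contDiff_succ_iff_deriv.1 (by exact_mod_cast hz)).2.2
  have hzdd : ∀ t, HasDerivAt (deriv z) (deriv (deriv z) t) t := fun t =>
    (hdz.differentiable (by norm_num)).differentiableAt.hasDerivAt
  have hmom : mom A Real.sin Real.sin r z = fun t => Real.sin (r t) ^ 2 • deriv z t := by
    funext t
    unfold mom
    rw [sub_self, zero_smul, add_zero]
  have hforce : ∀ t, force A Real.sin Real.sin r z t = 0 := by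
    intro t
    unfold force
    rw [sub_self, zero_smul]
  have hmd : ∀ t, deriv (mom A Real.sin Real.sin r z) t = Real.sin (r t) ^ 2 • deriv (deriv z) t +
      (2 * Real.sin (r t) * Real.cos (r t) * deriv r t) • deriv z t := by
    intro t
    rw [hmom]
    have h5 := (((hrd t).sin).pow 2).smul (hzdd t)
    have h6 : HasDerivAt (fun t => Real.sin (r t) ^ 2 • deriv z t)
        (Real.sin (r t) ^ 2 • deriv (deriv z) t +
      (2 * Real.sin (r t) * Real.cos (r t) * deriv r t) • deriv z t) t := by
      refine h5.congr_deriv ?_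
      simp only [Nat.cast_ofNat, Nat.reduceSub, pow_one, Pi.pow_apply]
      module
    exact h6.deriv
  -- orthogonality
  have o1 : ∀ t, ⟪z t, deriv z t⟫ = (0 : ℝ) := by
    intro t
    have g1 := (hzd t).inner ℝ (hzd t)
    have g2 : (fun t => ⟪z t, z t⟫) = fun _ => (1 : ℝ) := by
      funext s
      rw [real_inner_self_eq_norm_sq, hz1]
      norm_num
    rw [g2] at g1
    have g3 := g1.unique (hasDerivAt_const t (1 : ℝ))
    rw [real_inner_comm (z t) (deriv z t)] at g3
    linarith
  have o2 : ∀ t, ⟪z t, deriv (deriv z) t⟫ = -‖deriv z t‖ ^ 2 := by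
    intro t
    have g1 := (hzd t).inner ℝ (hzdd t)
    have g2 : (fun t => ⟪z t, deriv z t⟫) = fun _ => (0 : ℝ) := funext o1
    rw [g2] at g1
    have g3 := g1.unique (hasDerivAt_const t (0 : ℝ))
    rw [real_inner_self_eq_norm_sq] at g3
    linarith
  refine sphere_low (N := fun t => ‖deriv z t‖ ^ 2) hv hT hr hz
    (fun t h0 => ?_) (fun t => ?_) (fun t => ?_) (fun t => ?_) (fun t => ?_) (fun t => ?_)
  · have := hz1 t
    rw [h0] at this
    simp at this
  · rw [e1, Real.deriv_sin]
    unfold vsq
    ring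
  · obtain ⟨l, hl⟩ := e2 t
    rw [hmd, hforce, sub_zero] at hl
    have g1 := congrArg (fun w => ⟪z t, w⟫) hl
    simp only [inner_add_right, real_inner_smul_right, o1, o2, real_inner_self_eq_norm_sq,
      hz1] at g1
    have g2 : l = -(Real.sin (r t) ^ 2 * ‖deriv z t‖ ^ 2) := by linarith
    rw [g2] at hl
    rw [smul_add]
    linear_combination (norm := module) hl
  · have := e3 t
    unfold vsq at this
    linear_combination this
  · have h5 := hper t
    rw [hpt, hpt] at h5
    unfold sptO at h5
    have h6 := congrArg Prod.fst h5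
    simp only at h6
    rw [mul_div_cancel_left₀ _ hpi, mul_div_cancel_left₀ _ hpi] at h6
    exact h6
  · have h5 := hper t
    rw [hpt, hpt] at h5
    unfold sptO at h5
    have h6 := congrArg Prod.snd h5
    simp only at h6
    rw [mul_div_cancel_left₀ _ hpi, mul_div_cancel_left₀ _ hpi] at h6
    exact h6

end H804US.Low
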