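import Pool.Agent.H804.US.Rg
import Pool.Agent.H804.US.Low

/-!
# The equality case for the three families
-/

open Real Set MeasureTheory Filter Topology Quaternion
open scoped ContDiff
open H738CP H804OP
open H804OP.Cl H804OP.Sl

namespace H804US.Fin

theorem profile_round : IsProfileUS π Real.sin Real.sin := by
  have h : Pool.Agent.H206R2.Rot.IsProfile π Real.sin := by
    refine ⟨Real.pi_pos, Real.contDiff_sin, fun r => Real.sin_neg r, fun r => ?_,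
      fun r h1 h2 => Real.sin_pos_of_pos_of_lt_pi h1 h2, ?_, ?_⟩
    · rw [Real.sin_pi_sub, add_comm, Real.sin_add_pi]
    · rw [Real.deriv_sin, Real.cos_zero]
    · rw [Real.deriv_sin, Real.cos_pi]
  exact ⟨h, h⟩

theorem rigid_US {L : ℝ} {f h : ℝ → ℝ} (hf : IsProfileUS L f h) {n : ℕ} (hn : 2 ≤ n)
    (hno : ∀ (γ : ℝ → EuclideanSpace ℂ (Fin n) × ℝ) (T : ℝ), 0 < T →
      IsGeodesicUS L f h 1 γ → (∀ t, γ (t + T) = γ t) →
      (2 * π) ^ (2 * n) * (∫ r in (0 : ℝ)..L, f r * h r ^ (2 * n - 2)) ≤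
        T ^ (2 * n) * ∫ t in (0 : ℝ)..π, Real.sin t ^ (2 * n - 1)) :
    ∀ r ∈ Icc 0 L, f r = h r := by
  refine Rg.rigid hf hn 0 (2 * n - 3) (fun γ T hT hγ hper => ?_)
  have h1 := hno γ T hT hγ hper
  have e1 : 0 + (2 * n - 3) + 3 = 2 * n := by omega
  have e2 : 0 + (2 * n - 3) + 2 = 2 * n - 1 := by omega
  have e3 : 2 * n - 3 + 1 = 2 * n - 2 := by omega
  rw [e1, e2, e3]
  simpa using h1

theorem rigid_HS {L : ℝ} {f h : ℝ → ℝ} (hf : IsProfileUS L f h) {n : ℕ} (hn : 2 ≤ n)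
    (hno : ∀ (γ : ℝ → (Fin n → ℍ[ℝ]) × ℝ) (T : ℝ), 0 < T →
      IsGeodesicHS L f h 1 γ → (∀ t, γ (t + T) = γ t) →
      (2 * π) ^ (4 * n) * (∫ r in (0 : ℝ)..L, f r ^ 3 * h r ^ (4 * n - 4)) ≤
        T ^ (4 * n) * ∫ t in (0 : ℝ)..π, Real.sin t ^ (4 * n - 1)) :
    ∀ r ∈ Icc 0 L, f r = h r := by
  refine Rg.rigid hf (n := 2) le_rfl 2 (4 * n - 5) (fun γ T hT hγ hper => ?_)
  obtain ⟨γ', hγ', hper'⟩ := Main.embedHS hn hγ
  have h1 := hno γ' T hT hγ' (hper' T hper)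
  have e1 : 2 + (4 * n - 5) + 3 = 4 * n := by omega
  have e2 : 2 + (4 * n - 5) + 2 = 4 * n - 1 := by omega
  have e3 : 4 * n - 5 + 1 = 4 * n - 4 := by omega
  rw [e1, e2, e3]
  exact h1

theorem rigid_OS {A : Fin 9 → E16 →L[ℝ] E16} (hA : IsClifford A) {L : ℝ} {f h : ℝ → ℝ}
    (hf : IsProfileUS L f h)
    (hno : ∀ (γ : ℝ → E16 × ℝ) (T : ℝ), 0 < T →
      IsGeodesicOS A L f h 1 γ → (∀ t, γ (t + T) = γ t) →
      (2 * π) ^ 16 * (∫ r in (0 : ℝ)..L, f r ^ 7 * h r ^ 8) ≤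
        T ^ 16 * ∫ t in (0 : ℝ)..π, Real.sin t ^ 15) :
    ∀ r ∈ Icc 0 L, f r = h r := by
  obtain ⟨e, he, he1⟩ := Sl.exists_e hA
  refine Rg.rigid hf (n := 2) le_rfl 6 7 (fun γ T hT hγ hper => ?_)
  obtain ⟨γ', hγ', hper'⟩ := Main.embedOS hA he he1 hf hγ
  exact hno γ' T hT hγ' (hper' T hper)

end H804US.Fin
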