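import Pool.Agent.H804.US.Defs
import Pool.Agent.H804.OP.Defs
import Pool.Graph.R_seed8.H738R3.CP.HDefs

/-!
# `Sp(n)Sp(1)`-invariant metrics on `S^{4n}` and `Spin(9)`-invariant metrics on `S^16`: definitions

Metrics `dr² + f(r)² g_V + h(r)² g_H`, `0 ≤ r ≤ L`, on `S^N ⊂ ℝ^N × ℝ`, where `r` is the distance from
the first pole, `L` the distance of the poles, and `g_V`, `g_H` are the restrictions of the round metric
of `S^{N-1}` to the vertical and horizontal tangent vectors of the quaternionic (`N = 4 n`) or octonionic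
(`N = 16`) Hopf fibration.  The conditions for a smooth metric are the same as for `U(n)`-invariant
metrics on `S^{2n}` (`IsProfileUS`).
-/

open Real Set MeasureTheory Quaternion
open scoped ContDiff

namespace H804US

open H738CP H804OP

/-- The point of `S^{4n} ⊂ ℍ^n × ℝ` at distance `r` from the first pole in direction `z ∈ S^{4n-1}`, for
`0 ≤ r ≤ L`; for all real `r` by continuing the meridian. -/
noncomputable def sptH {n : ℕ} (L r : ℝ) (z : Fin n → ℍ[ℝ]) : (Fin n → ℍ[ℝ]) × ℝ :=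
  (Real.sin (π * r / L) • z, Real.cos (π * r / L))

/-- `γ` is a geodesic of speed `v` of the metric `dr² + f(r)² |θ|² + h(r)² g_hor` on `S^{4n}`, written in
extended coordinates `(r, z)`, `z ∈ S^{4n-1} ⊂ ℍ^n`. -/
def IsGeodesicHS {n : ℕ} (L : ℝ) (f h : ℝ → ℝ) (v : ℝ) (γ : ℝ → (Fin n → ℍ[ℝ]) × ℝ) : Prop :=
  ∃ (r : ℝ → ℝ) (z : ℝ → Fin n → ℍ[ℝ]),
    ContDiff ℝ 2 r ∧ ContDiff ℝ 2 z ∧ (∀ t, nsq (z t) = 1) ∧ (∀ t, γ t = sptH L (r t) (z t)) ∧
    (∀ t, deriv (deriv r) t = f (r t) * deriv f (r t) * ‖qvert z t‖ ^ 2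
      + h (r t) * deriv h (r t) * nsq (qhor z t)) ∧
    (∃ P : ℍ[ℝ], ∀ t, f (r t) ^ 2 • qvert z t = P) ∧
    (∀ t i, h (r t) ^ 2 • (deriv (qhor z) t i + nsq (qhor z t) • z t i)
      + (2 * h (r t) * deriv h (r t) * deriv r t) • qhor z t i
      + (2 * f (r t) ^ 2 - h (r t) ^ 2) • (qhor z t i * qvert z t) = 0) ∧
    (∀ t, deriv r t ^ 2 + f (r t) ^ 2 * ‖qvert z t‖ ^ 2 + h (r t) ^ 2 * nsq (qhor z t) = v ^ 2)

/-- The point of `S^16 ⊂ ℝ^16 × ℝ` at distance `r` from the first pole in direction `z ∈ S^15`, for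
`0 ≤ r ≤ L`; for all real `r` by continuing the meridian. -/
noncomputable def sptO (L r : ℝ) (z : E16) : E16 × ℝ :=
  (Real.sin (π * r / L) • z, Real.cos (π * r / L))

/-- `γ` is a geodesic of speed `v` of the metric `dr² + f(r)² g_V + h(r)² g_H` on `S^16`, written in
extended coordinates `(r, z)`, `z ∈ S^15 ⊂ ℝ^16`: the Euler-Lagrange equations for `r` and, with the
Lagrange multiplier `l` of the constraint `|z| = 1`, for `z`. -/
def IsGeodesicOS (A : Fin 9 → E16 →L[ℝ] E16) (L : ℝ) (f h : ℝ → ℝ) (v : ℝ)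
    (γ : ℝ → E16 × ℝ) : Prop :=
  ∃ (r : ℝ → ℝ) (z : ℝ → E16),
    ContDiff ℝ 2 r ∧ ContDiff ℝ 2 z ∧ (∀ t, ‖z t‖ = 1) ∧ (∀ t, γ t = sptO L (r t) (z t)) ∧
    (∀ t, deriv (deriv r) t = f (r t) * deriv f (r t) * vsq A (z t) (deriv z t)
      + h (r t) * deriv h (r t) * hsq A (z t) (deriv z t)) ∧
    (∀ t, ∃ l : ℝ, deriv (mom A f h r z) t - force A f h r z t = l • z t) ∧
    (∀ t, deriv r t ^ 2 + f (r t) ^ 2 * vsq A (z t) (deriv z t)
      + h (r t) ^ 2 * hsq A (z t) (deriv z t) = v ^ 2)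

end H804US
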