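import Pool.Agent.H804.US.Mn
import Pool.Graph.R_seed8.H206R2.Rot2.TI
import Pool.Agent.H804.OP.Rig1

/-!
# The volume bound from the action bound on the quarter disc
-/

open Real Set MeasureTheory
open scoped ContDiff
open Pool.Agent.H206R2
open Pool.Agent.H206R2.Rot2 (Veff)
open Pool.Agent.H206R2.Rot2.TI

namespace H804US.Vol

open Mn (RegD isOpen_RegD)

lemma RegD_measurable (R : ℝ) : MeasurableSet (RegD R) := (isOpen_RegD R).measurableSet

lemma RegD_subset (R : ℝ) : RegD R ⊆ Ioi (0 : ℝ) ×ˢ Ioi (0 : ℝ) := fun _ hc => ⟨hc.1, hc.2.1⟩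

lemma fst_le (c : ℝ × ℝ) : c.1 ≤ √(c.1 ^ 2 + c.2 ^ 2) :=
  Real.le_sqrt_of_sq_le (by nlinarith [sq_nonneg c.2])

lemma snd_le (c : ℝ × ℝ) : c.2 ≤ √(c.1 ^ 2 + c.2 ^ 2) :=
  Real.le_sqrt_of_sq_le (by nlinarith [sq_nonneg c.1])

lemma RegD_subset_Icc (R : ℝ) : RegD R ⊆ Icc (0 : ℝ) R ×ˢ Icc (0 : ℝ) R := fun c hc =>
  ⟨⟨hc.1.le, (fst_le c).trans hc.2.2.le⟩, ⟨hc.2.1.le, (snd_le c).trans hc.2.2.le⟩⟩

/-- The lower integral, in polar coordinates. -/
lemma lower_disc {R : ℝ} (hR : 0 < R) (a b : ℕ) :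
    ∫ c in RegD R, (2 * π * (R - √(c.1 ^ 2 + c.2 ^ 2))) * (c.1 ^ a * c.2 ^ b) =
      2 * π * (R ^ (a + b + 3) / (((a : ℝ) + b + 2) * ((a : ℝ) + b + 3))) * SC b a := by
  have hpi := Real.pi_pos
  rw [← integral_indicator (RegD_measurable R), ← integral_comp_polarCoord_symm]
  have e1 : ∫ p in polarCoord.target, p.1 • indicator (RegD R)
      (fun c : ℝ × ℝ => (2 * π * (R - √(c.1 ^ 2 + c.2 ^ 2))) * (c.1 ^ a * c.2 ^ b))
        (polarCoord.symm p) =
      ∫ p in polarCoord.target, indicator (Ioo 0 R ×ˢ Ioo 0 (π / 2))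
        (fun p : ℝ × ℝ => (2 * π * (R - p.1) * p.1 ^ (a + b + 1)) *
          (Real.sin p.2 ^ b * Real.cos p.2 ^ a)) p := by
    apply setIntegral_congr_fun polarCoord.open_target.measurableSet
    intro p hp
    have hp1 : 0 < p.1 := hp.1
    have hp2 : -π < p.2 ∧ p.2 < π := hp.2
    have hsym : polarCoord.symm p = (p.1 * Real.cos p.2, p.1 * Real.sin p.2) := rfl
    simp only
    have hJ : √((p.1 * Real.cos p.2) ^ 2 + (p.1 * Real.sin p.2) ^ 2) = p.1 := by
      have : (p.1 * Real.cos p.2) ^ 2 + (p.1 * Real.sin p.2) ^ 2 = p.1 ^ 2 := by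
        linear_combination p.1 ^ 2 * Real.sin_sq_add_cos_sq p.2
      rw [this, Real.sqrt_sq hp1.le]
    by_cases hq : p ∈ Ioo 0 R ×ˢ Ioo 0 (π / 2)
    · have h1 : 0 < Real.cos p.2 := Real.cos_pos_of_mem_Ioo ⟨by linarith [hq.2.1], hq.2.2⟩
      have h2 : 0 < Real.sin p.2 := Real.sin_pos_of_pos_of_lt_pi hq.2.1 (by linarith [hq.2.2])
      have hm : polarCoord.symm p ∈ RegD R := by
        rw [hsym]
        refine ⟨mul_pos hp1 h1, mul_pos hp1 h2, ?_⟩
        simp only
        rw [hJ]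
        exact hq.1.2
      rw [indicator_of_mem hm, indicator_of_mem hq, hsym]
      simp only
      rw [hJ, smul_eq_mul]
      ring
    · have hm : polarCoord.symm p ∉ RegD R := by
        intro hm
        rw [hsym] at hm
        obtain ⟨m1, m2, m3⟩ := hm
        simp only at m1 m2 m3
        rw [hJ] at m3
        have h1 : 0 < Real.cos p.2 := (mul_pos_iff_of_pos_left hp1).1 m1
        have h2 : 0 < Real.sin p.2 := (mul_pos_iff_of_pos_left hp1).1 m2
        apply hq
        refine ⟨⟨hp1, m3⟩, ?_, ?_⟩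
        · by_contra hcon
          have := Real.sin_nonpos_of_nonpos_of_neg_pi_le (not_lt.1 hcon) hp2.1.le
          linarith
        · by_contra hcon
          have := Real.cos_nonpos_of_pi_div_two_le_of_le (not_lt.1 hcon) (by linarith [hp2.2])
          linarith
      rw [indicator_of_notMem hm, indicator_of_notMem hq, smul_zero]
  rw [e1, setIntegral_indicator (measurableSet_Ioo.prod measurableSet_Ioo),
    inter_eq_self_of_subset_right (s := polarCoord.target)]
  · rw [Measure.volume_eq_prod, setIntegral_prod_mul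
      (fun x : ℝ => 2 * π * (R - x) * x ^ (a + b + 1))
      (fun y : ℝ => Real.sin y ^ b * Real.cos y ^ a),
      ← integral_Ioc_eq_integral_Ioo, ← integral_Ioc_eq_integral_Ioo,
      ← intervalIntegral.integral_of_le hR.le, ← intervalIntegral.integral_of_le (by positivity)]
    have h1 := lower_inner R (a + b + 1)
    have h2 : ∫ x in (0 : ℝ)..R, 2 * π * (R - x) * x ^ (a + b + 1) =
        2 * π * ∫ x in (0 : ℝ)..R, (R - x) * x ^ (a + b + 1) := by
      rw [← intervalIntegral.integral_const_mul]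
      apply intervalIntegral.integral_congr
      intro x _
      simp only
      ring
    rw [h2, h1, SC]
    congr 3
    push_cast
    ring
  · intro p hp
    exact ⟨hp.1.1, by linarith [hp.2.1], by linarith [hp.2.2]⟩

lemma SC_pos (p q : ℕ) : 0 < SC p q := by
  apply intervalIntegral.intervalIntegral_pos_of_pos_on
    (Continuous.intervalIntegrable (by fun_prop) _ _) _ (by positivity)
  intro x hx
  have h5 := Real.sin_pos_of_pos_of_lt_pi hx.1 (by linarith [hx.2, Real.pi_pos])
  have h6 : 0 < Real.cos x := Real.cos_pos_of_mem_Ioo ⟨by linarith [hx.1, Real.pi_pos], hx.2⟩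
  positivity

lemma half (m : ℕ) : ∫ x in (0 : ℝ)..(π / 2), Real.sin x ^ m =
    (1 / 2) * ∫ x in (0 : ℝ)..π, Real.sin x ^ m := by
  induction m using Nat.twoStepInduction with
  | zero =>
    simp
    ring
  | one =>
    simp
    norm_num
  | more m ih1 _ =>
    rw [Rot.TE.W_rec, Rot.TE.V_rec, ih1]
    ring

/-- The constant of the round sphere. -/
lemma const_id (b a : ℕ) : 2 * (((∫ x in (0 : ℝ)..1, √(1 - x ^ 2) * x ^ b) * SC a (b + 3)) *
      ∫ t in (0 : ℝ)..π, Real.sin t ^ (a + b + 2)) =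
    2 * π * (1 / (((a : ℝ) + b + 2) * ((a : ℝ) + b + 3))) * SC b a := by
  have hB : ∫ x in (0 : ℝ)..1, √(1 - x ^ 2) * x ^ b =
    (1 / ((b : ℝ) + 2)) * ∫ x in (0 : ℝ)..(π / 2), Real.sin x ^ b := Rot.TE.B_eq b
  rw [hB]
  set W := ∫ x in (0 : ℝ)..(π / 2), Real.sin x ^ b with hW
  induction a using Nat.twoStepInduction with
  | zero =>
    have h1 : SC b 0 = W := by
      rw [hW]
      unfold SC
      simp
    have h2 : SC 0 (b + 3) = (1 / 2) * ∫ x in (0 : ℝ)..π, Real.sin x ^ (b + 3) := by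
      have := EulerSine.integral_cos_pow_eq (b + 3)
      rw [← this]
      unfold SC
      simp
    have h3 := Rot.TE.VW (b + 2)
    rw [half] at h3
    rw [h1, h2, show 0 + b + 2 = b + 2 by ring]
    rw [show b + 2 + 1 = b + 3 by ring] at h3
    have h4 : (∫ x in (0 : ℝ)..π, Real.sin x ^ (b + 3)) * (∫ x in (0 : ℝ)..π, Real.sin x ^ (b + 2)) =
        2 * (π / ((b : ℝ) + 3)) := by
      push_cast at h3
      rw [show (b : ℝ) + 2 + 1 = b + 3 by ring] at h3
      linarith
    calc _ = (1 / ((b : ℝ) + 2)) * W * ((∫ x in (0 : ℝ)..π, Real.sin x ^ (b + 3)) *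
          (∫ x in (0 : ℝ)..π, Real.sin x ^ (b + 2))) := by ring
      _ = _ := by
        rw [h4]
        push_cast
        have e1 : (b : ℝ) + 2 ≠ 0 := by positivity
        have e2 : (b : ℝ) + 3 ≠ 0 := by positivity
        have e3 : (0 : ℝ) + b + 2 ≠ 0 := by positivity
        have e4 : (0 : ℝ) + b + 3 ≠ 0 := by positivity
        field_simp
        ring
  | one =>
    have h1 : SC b 1 = 1 / ((b : ℝ) + 1) := by
      have hd : ∀ t : ℝ, HasDerivAt (fun t : ℝ => (Real.sin t ^ (b + 1)) / ((b : ℝ) + 1))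
          (Real.sin t ^ b * Real.cos t ^ 1) t := by
        intro t
        have h2 := (((Real.hasDerivAt_sin t).pow (b + 1))).div_const ((b : ℝ) + 1)
        refine HasDerivAt.congr_deriv h2 ?_
        simp only [add_tsub_cancel_right]
        push_cast
        have : (b : ℝ) + 1 ≠ 0 := by positivity
        field_simp
      unfold SC
      rw [intervalIntegral.integral_eq_sub_of_hasDerivAt (fun t _ => hd t)
        (Continuous.intervalIntegrable (by fun_prop) _ _)]
      rw [Real.sin_pi_div_two, Real.sin_zero, one_pow, zero_pow (by omega)]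
      ring
    have h2 := SC_one (b + 3)
    have h3 := Rot.TE.VW b
    have h4 := Rot.TE.V_rec (b + 1)
    rw [← hW] at h3
    rw [show 1 + b + 2 = b + 1 + 2 by ring, h4, h2, h1]
    push_cast
    calc _ = (2 * (1 / ((b : ℝ) + 2)) * (1 / ((b : ℝ) + 3 + 1)) * (((b : ℝ) + 1 + 1) / ((b : ℝ) + 1 + 2))) *
          ((∫ x in (0 : ℝ)..π, Real.sin x ^ (b + 1)) * W) := by ring
      _ = _ := by
        rw [h3]
        have e1 : (b : ℝ) + 2 ≠ 0 := by positivity
        have e2 : (b : ℝ) + 3 + 1 ≠ 0 := by positivity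
        have e3 : (b : ℝ) + 1 + 2 ≠ 0 := by positivity
        have e4 : (b : ℝ) + 1 ≠ 0 := by positivity
        have e5 : (1 : ℝ) + b + 2 ≠ 0 := by positivity
        have e6 : (1 : ℝ) + b + 3 ≠ 0 := by positivity
        field_simp
        ring
  | more a ih _ =>
    have h1 := SC_left a (b + 3)
    have h2 := SC_right b a
    have h3 := Rot.TE.V_rec (a + b + 2)
    rw [show a + 2 + b + 2 = a + b + 2 + 2 by ring, h3]
    push_cast at h1 h2 ih ⊢
    set x : ℝ := (a : ℝ) with hx
    set y : ℝ := (b : ℝ) with hy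
    have hx0 : 0 ≤ x := by rw [hx]; positivity
    have hy0 : 0 ≤ y := by rw [hy]; positivity
    have e1 : SC (a + 2) (b + 3) = (x + 1) / (x + (y + 3) + 2) * SC a (b + 3) := by
      rw [div_mul_eq_mul_div, eq_div_iff (by positivity)]
      linarith
    have e2 : SC b (a + 2) = (x + 1) / (y + x + 2) * SC b a := by
      rw [div_mul_eq_mul_div, eq_div_iff (by positivity)]
      linarith
    rw [e1, e2]
    calc _ = ((x + 1) / (x + (y + 3) + 2) * ((x + y + 2 + 1) / (x + y + 2 + 2))) *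
        (2 * (1 / (y + 2) * W * SC a (b + 3) *
          ∫ t in (0 : ℝ)..π, Real.sin t ^ (a + b + 2))) := by ring
      _ = ((x + 1) / (x + (y + 3) + 2) * ((x + y + 2 + 1) / (x + y + 2 + 2))) *
        (2 * π * (1 / ((x + y + 2) * (x + y + 3))) * SC b a) := by rw [ih]
      _ = _ := by
        have e3 : x + (y + 3) + 2 ≠ 0 := by positivity
        have e4 : x + y + 2 + 2 ≠ 0 := by positivity
        have e5 : x + y + 2 ≠ 0 := by positivity
        have e6 : x + y + 3 ≠ 0 := by positivity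
        have e7 : y + x + 2 ≠ 0 := by positivity
        have e8 : x + 2 + y + 2 ≠ 0 := by positivity
        have e9 : x + 2 + y + 3 ≠ 0 := by positivity
        field_simp
        ring

lemma gg_le {F H R : ℝ} (hF : 0 < F) (hH : 0 < H) (a b : ℕ) :
    ∫ c in RegD R, gg F H a b c ≤
      F ^ (a + 1) * H ^ (b + 1) * ((∫ x in (0 : ℝ)..1, √(1 - x ^ 2) * x ^ b) * SC a (b + 3)) := by
  rw [← gg_integral hF hH]
  apply setIntegral_mono_set (gg_integrable hF hH a b)
  · filter_upwards [ae_restrict_mem (measurableSet_Ioi.prod measurableSet_Ioi)] with c hc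
    exact gg_nonneg a b hc.1 hc.2
  · exact (RegD_subset R).eventuallyLE

lemma gg_lt {F H R : ℝ} (hF : 0 < F) (hH : 0 < H) (hR : 0 < R) (hRF : R < F) (a b : ℕ) :
    ∫ c in RegD R, gg F H a b c <
      F ^ (a + 1) * H ^ (b + 1) * ((∫ x in (0 : ℝ)..1, √(1 - x ^ 2) * x ^ b) * SC a (b + 3)) := by
  rw [← gg_integral hF hH]
  set Q : Set (ℝ × ℝ) := Ioi (0 : ℝ) ×ˢ Ioi (0 : ℝ) with hQ
  have hi := gg_integrable hF hH a b
  have hQm : MeasurableSet Q := measurableSet_Ioi.prod measurableSet_Ioi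
  have h1 : ∫ c in Q, gg F H a b c =
      (∫ c in Q \ RegD R, gg F H a b c) + ∫ c in RegD R, gg F H a b c := by
    rw [← setIntegral_union disjoint_sdiff_left (RegD_measurable R) (hi.mono_set sdiff_subset)
      (hi.mono_set (RegD_subset R)), sdiff_union_of_subset (RegD_subset R)]
  rw [h1]
  have h2 : 0 < ∫ c in Q \ RegD R, gg F H a b c := by
    rw [setIntegral_pos_iff_support_of_nonneg_ae]
    · -- an open set in the support
      set U : Set (ℝ × ℝ) := {c | R < c.1 ∧ 0 < c.2 ∧ (c.1 / F) ^ 2 + (c.2 / H) ^ 2 < 1} with hU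
      have hUo : IsOpen U := by
        have o1 : IsOpen {c : ℝ × ℝ | R < c.1} := isOpen_lt continuous_const continuous_fst
        have o2 : IsOpen {c : ℝ × ℝ | 0 < c.2} := isOpen_lt continuous_const continuous_snd
        have o3 : IsOpen {c : ℝ × ℝ | (c.1 / F) ^ 2 + (c.2 / H) ^ 2 < 1} :=
          isOpen_lt (by fun_prop) continuous_const
        exact o1.inter (o2.inter o3)
      have hUn : U.Nonempty := by
        -- c.1 = (R+F)/2, c.2 small
        set x := (R + F) / 2 with hx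
        have hx1 : R < x := by rw [hx]; linarith
        have hx2 : x < F := by rw [hx]; linarith
        have hx0 : 0 < x := hR.trans hx1
        have hxF : (x / F) ^ 2 < 1 := by
          have h3 : x / F < 1 := by rwa [div_lt_one hF]
          have h4 : 0 < x / F := by positivity
          nlinarith
        set δ := 1 - (x / F) ^ 2 with hδ
        have hδ0 : 0 < δ := by rw [hδ]; linarith
        have hδ1 : δ ≤ 1 := by rw [hδ]; nlinarith [sq_nonneg (x / F)]
        refine ⟨(x, H * (δ / 2)), hx1, by positivity, ?_⟩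
        simp only
        have h5 : H * (δ / 2) / H = δ / 2 := by field_simp
        rw [h5]
        nlinarith
      refine (hUo.measure_pos volume hUn).trans_le (measure_mono ?_)
      intro c hc
      have hc1 : 0 < c.1 := hR.trans hc.1
      refine ⟨?_, ⟨⟨hc1, hc.2.1⟩, fun h => ?_⟩⟩
      · rw [Function.mem_support]
        unfold gg
        have h6 : 0 < √(1 - ((c.1 / F) ^ 2 + (c.2 / H) ^ 2)) := Real.sqrt_pos.2 (by linarith [hc.2.2])
        have h7 : 0 < c.1 ^ a * c.2 ^ b := mul_pos (pow_pos hc1 a) (pow_pos hc.2.1 b)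
        positivity
      · have := h.2.2
        linarith [hc.1, fst_le c]
    · filter_upwards [ae_restrict_mem (hQm.diff (RegD_measurable R))] with c hc
      exact gg_nonneg a b hc.1.1 hc.1.2
    · exact hi.mono_set sdiff_subset
  linarith

theorem volume_bound {L : ℝ} {f h : ℝ → ℝ} (hfc : Continuous f) (hhc : Continuous h) (hL : 0 < L)
    (hfp : ∀ r, 0 < r → r < L → 0 < f r) (hhp : ∀ r, 0 < r → r < L → 0 < h r) (a b : ℕ)
    {R : ℝ} (hR : 0 < R)
    (hA : ∀ c ∈ RegD R, 2 * π * (R - √(c.1 ^ 2 + c.2 ^ 2)) ≤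
      2 * ∫ r in Ioo 0 L, √(1 - Veff f h c.1 c.2 r))
    (hbig : ∃ r, 0 < r ∧ r < L ∧ R < f r) :
    R ^ (a + b + 3) * (∫ t in (0 : ℝ)..π, Real.sin t ^ (a + b + 2)) <
      ∫ r in (0 : ℝ)..L, f r ^ (a + 1) * h r ^ (b + 1) := by
  have hfm : Measurable f := hfc.measurable
  have hhm : Measurable h := hhc.measurable
  have hcid := const_id b a
  set J1 := ∫ x in (0 : ℝ)..1, √(1 - x ^ 2) * x ^ b with hJ1
  set K := J1 * SC a (b + 3) with hK
  set μ : Measure ℝ := volume.restrict (Ioo 0 L) with hμ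
  set ν : Measure (ℝ × ℝ) := volume.restrict (RegD R) with hν
  have hTfin : volume (RegD R) ≠ ⊤ := by
    have h1 : volume (Icc (0 : ℝ) R ×ˢ Icc (0 : ℝ) R) < ⊤ :=
      (isCompact_Icc.prod isCompact_Icc).measure_lt_top
    exact ((measure_mono (RegD_subset_Icc R)).trans_lt h1).ne
  have : IsFiniteMeasure ν := ⟨by rw [hν, Measure.restrict_apply_univ]; exact lt_top_iff_ne_top.2 hTfin⟩
  have : IsFiniteMeasure μ := ⟨by rw [hμ, Measure.restrict_apply_univ]; simp⟩
  -- Fubini
  have hmeas : Measurable (fun p : ℝ × (ℝ × ℝ) => gg (f p.1) (h p.1) a b p.2) := by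
    unfold gg
    fun_prop
  have hint : Integrable (fun p : ℝ × (ℝ × ℝ) => gg (f p.1) (h p.1) a b p.2) (μ.prod ν) := by
    have hb : ∀ᵐ p ∂(μ.prod ν), ‖gg (f p.1) (h p.1) a b p.2‖ ≤ R ^ a * R ^ b := by
      have e : μ.prod ν = (volume.prod volume).restrict (Ioo 0 L ×ˢ RegD R) := by
        rw [hμ, hν, Measure.prod_restrict]
      rw [e]
      filter_upwards [ae_restrict_mem (measurableSet_Ioo.prod (RegD_measurable R))] with p hp
      have h1 := (RegD_subset_Icc R) hp.2
      exact gg_bound a b hp.2.1 hp.2.2.1 h1.1.2 h1.2.2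
    exact Integrable.of_bound hmeas.aestronglyMeasurable _ hb
  have hswap := integral_integral_swap (f := fun r c => gg (f r) (h r) a b c) (μ := μ) (ν := ν) hint
  -- lower bound
  have hact : ∀ c : ℝ × ℝ, (2 * ∫ r in Ioo 0 L, √(1 - Veff f h c.1 c.2 r)) * (c.1 ^ a * c.2 ^ b) =
      2 * ∫ r, gg (f r) (h r) a b c ∂μ := by
    intro c
    rw [mul_assoc, ← integral_mul_const]
    rfl
  have h1 : 2 * π * (R ^ (a + b + 3) / (((a : ℝ) + b + 2) * ((a : ℝ) + b + 3))) * SC b a ≤
      2 * ∫ c, ∫ r, gg (f r) (h r) a b c ∂μ ∂ν := by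
    rw [← lower_disc hR, ← integral_const_mul]
    apply setIntegral_mono_on _ _ (RegD_measurable R)
    · intro c hc
      rw [← hact]
      apply mul_le_mul_of_nonneg_right (hA c hc)
      have := hc.1
      have := hc.2.1
      positivity
    · have h2 : IntegrableOn (fun c : ℝ × ℝ => (2 * π * (R - √(c.1 ^ 2 + c.2 ^ 2))) * (c.1 ^ a * c.2 ^ b))
          (Icc (0 : ℝ) R ×ˢ Icc (0 : ℝ) R) :=
        (Continuous.continuousOn (by fun_prop)).integrableOn_compact (isCompact_Icc.prod isCompact_Icc)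
      exact h2.mono_set (RegD_subset_Icc R)
    · exact (hint.integral_prod_right).const_mul 2
  rw [← hswap] at h1
  -- comparison
  have hIm : Integrable (fun r => ∫ c, gg (f r) (h r) a b c ∂ν) μ := hint.integral_prod_left
  have hfi : Integrable (fun r => f r ^ (a + 1) * h r ^ (b + 1) * K) μ := by
    have h3 : IntegrableOn (fun r => f r ^ (a + 1) * h r ^ (b + 1) * K) (Icc 0 L) :=
      (Continuous.continuousOn (by fun_prop)).integrableOn_Icc
    exact h3.mono_set Ioo_subset_Icc_self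
  have h3 : ∫ r, ∫ c, gg (f r) (h r) a b c ∂ν ∂μ < ∫ r, f r ^ (a + 1) * h r ^ (b + 1) * K ∂μ := by
    rw [← sub_pos, ← integral_sub hfi hIm]
    rw [integral_pos_iff_support_of_nonneg_ae]
    · obtain ⟨r₀, hr0, hrL, hrR⟩ := hbig
      have hopen : IsOpen (Ioo 0 L ∩ {r | R < f r}) := isOpen_Ioo.inter (isOpen_lt continuous_const hfc)
      have hpos : 0 < volume (Ioo 0 L ∩ {r | R < f r}) :=
        hopen.measure_pos volume ⟨r₀, ⟨hr0, hrL⟩, hrR⟩
      have hμpos : 0 < μ (Ioo 0 L ∩ {r | R < f r}) := by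
        rw [hμ, Measure.restrict_apply hopen.measurableSet]
        have : Ioo 0 L ∩ {r | R < f r} ∩ Ioo 0 L = Ioo 0 L ∩ {r | R < f r} := by
          ext x; simp; tauto
        rwa [this]
      refine hμpos.trans_le (measure_mono ?_)
      intro r hr
      rw [Function.mem_support]
      have h5 := gg_lt (hR.trans hr.2) (hhp r hr.1.1 hr.1.2) hR hr.2 a b
      exact (sub_pos.mpr h5).ne'
    · have hae : ∀ᵐ r ∂μ, r ∈ Ioo 0 L := ae_restrict_mem measurableSet_Ioo
      filter_upwards [hae] with r hr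
      have h5 := gg_le (R := R) (hfp r hr.1 hr.2) (hhp r hr.1 hr.2) a b
      simp only [Pi.zero_apply]
      exact sub_nonneg.2 h5
    · exact hfi.sub hIm
  have h4 : ∫ r, f r ^ (a + 1) * h r ^ (b + 1) * K ∂μ = K * ∫ r in (0 : ℝ)..L, f r ^ (a + 1) * h r ^ (b + 1) := by
    rw [integral_mul_const, intervalIntegral.integral_of_le hL.le, hμ,
      integral_Ioc_eq_integral_Ioo, mul_comm]
  -- positivity of K
  have hB : J1 = (1 / ((b : ℝ) + 2)) * ∫ x in (0 : ℝ)..(π / 2), Real.sin x ^ b := Rot.TE.B_eq b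
  have hWpos : 0 < ∫ x in (0 : ℝ)..(π / 2), Real.sin x ^ b := by
    have := SC_pos b 0
    unfold SC at this
    simpa using this
  have hKpos : 0 < K := by
    rw [hK, hB]
    have := SC_pos a (b + 3)
    positivity
  have h6 : 2 * π * (R ^ (a + b + 3) / (((a : ℝ) + b + 2) * ((a : ℝ) + b + 3))) * SC b a =
      2 * K * (R ^ (a + b + 3) * ∫ t in (0 : ℝ)..π, Real.sin t ^ (a + b + 2)) := by
    calc _ = R ^ (a + b + 3) * (2 * π * (1 / (((a : ℝ) + b + 2) * ((a : ℝ) + b + 3))) * SC b a) := by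
          ring
      _ = _ := by
        rw [← hcid]
        ring
  rw [h6] at h1
  rw [h4] at h3
  have h7 : 2 * K * (R ^ (a + b + 3) * ∫ t in (0 : ℝ)..π, Real.sin t ^ (a + b + 2)) <
      2 * K * ∫ r in (0 : ℝ)..L, f r ^ (a + 1) * h r ^ (b + 1) := by
    linarith
  exact lt_of_mul_lt_mul_left h7 (by positivity)

end H804US.Vol
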