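import Pool.Agent.H804.US.Main

/-!
# Equality in the bound: the profiles agree
-/

open Real Set MeasureTheory Filter Topology
open scoped ContDiff
open Pool.Agent.H206R2.Rot2 (Veff)
open Pool.Agent.H206R2.Rot2.TI (SC)
open Pool.Agent.H206R2
open H738CP
open H804OP.Rig (Kc Vm Kc_pos box)

namespace H804US.Rg

open Mn (RegD isOpen_RegD)
open Vol (RegD_measurable RegD_subset RegD_subset_Icc fst_le snd_le lower_disc const_id)

/-- the action of the round sphere -/
noncomputable def Gd (R : ℝ) (c : ℝ × ℝ) : ℝ := 2 * π * (R - √(c.1 ^ 2 + c.2 ^ 2))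

lemma RegD_mono {R M : ℝ} (h : R ≤ M) : RegD R ⊆ Ioc (0 : ℝ) M ×ˢ Ioc (0 : ℝ) M := fun c hc =>
  ⟨⟨hc.1, ((fst_le c).trans hc.2.2.le).trans h⟩, ⟨hc.2.1, ((snd_le c).trans hc.2.2.le).trans h⟩⟩

theorem moments {L : ℝ} {f h : ℝ → ℝ} (hf : IsProfileUS L f h) {R : ℝ} (hR : 0 < R)
    (hA : ∀ c ∈ RegD R, Gd R c ≤ 2 * ∫ r in Ioo 0 L, √(1 - Veff f h c.1 c.2 r))
    {a b : ℕ} (hV : Vm L f h a b ≤ R ^ (a + b + 3) * ∫ t in (0 : ℝ)..π, Real.sin t ^ (a + b + 2))
    (i j : ℕ) :
    Vm L f h i j = R ^ (i + j + 3) * ∫ t in (0 : ℝ)..π, Real.sin t ^ (i + j + 2) := by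
  have hfc : Continuous f := hf.pf.smooth.continuous
  have hhc : Continuous h := hf.ph.smooth.continuous
  -- the lower integral
  have hlow : ∀ i j : ℕ, ∫ c in RegD R, Gd R c * (c.1 ^ i * c.2 ^ j) =
      2 * (Kc i j * (R ^ (i + j + 3) * ∫ t in (0 : ℝ)..π, Real.sin t ^ (i + j + 2))) := by
    intro i j
    have h1 := lower_disc hR i j
    have h2 := const_id j i
    unfold Gd
    rw [h1]
    unfold Kc
    calc _ = R ^ (i + j + 3) * (2 * π * (1 / (((i : ℝ) + j + 2) * ((i : ℝ) + j + 3))) * SC j i) := by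
          ring
      _ = _ := by
        rw [← h2]
        ring
  obtain ⟨M1, hM1⟩ := isCompact_Icc.exists_bound_of_continuousOn (s := Icc 0 L) hfc.continuousOn
  obtain ⟨M2, hM2⟩ := isCompact_Icc.exists_bound_of_continuousOn (s := Icc 0 L) hhc.continuousOn
  set M := max (max M1 M2) R with hMdef
  have hRM : R ≤ M := le_max_right _ _
  have hM : ∀ r ∈ Ioo 0 L, 0 < f r ∧ f r ≤ M ∧ 0 < h r ∧ h r ≤ M := by
    intro r hr
    refine ⟨hf.pf.fpos r hr.1 hr.2, ?_, hf.ph.fpos r hr.1 hr.2, ?_⟩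
    · exact (le_abs_self _).trans ((hM1 r (Ioo_subset_Icc_self hr)).trans
        ((le_max_left _ _).trans (le_max_left _ _)))
    · exact (le_abs_self _).trans ((hM2 r (Ioo_subset_Icc_self hr)).trans
        ((le_max_right _ _).trans (le_max_left _ _)))
  set B : Set (ℝ × ℝ) := Ioc (0 : ℝ) M ×ˢ Ioc (0 : ℝ) M with hB
  have hBm : MeasurableSet B := measurableSet_Ioc.prod measurableSet_Ioc
  have hbox := box hfc hhc hf.pf.pos.le hM
  have hGi : ∀ i j : ℕ, IntegrableOn (fun c : ℝ × ℝ =>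
      indicator (RegD R) (fun c => Gd R c * (c.1 ^ i * c.2 ^ j)) c) B := by
    intro i j
    apply Integrable.integrableOn
    rw [integrable_indicator_iff (RegD_measurable R)]
    have h2 : IntegrableOn (fun c : ℝ × ℝ => Gd R c * (c.1 ^ i * c.2 ^ j))
        (Icc (0 : ℝ) R ×ˢ Icc (0 : ℝ) R) := by
      unfold Gd
      exact (Continuous.continuousOn (by fun_prop)).integrableOn_compact
        (isCompact_Icc.prod isCompact_Icc)
    exact h2.mono_set (RegD_subset_Icc R)
  have hGe : ∀ i j : ℕ, ∫ c in B, indicator (RegD R) (fun c => Gd R c * (c.1 ^ i * c.2 ^ j)) c =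
      2 * (Kc i j * (R ^ (i + j + 3) * ∫ t in (0 : ℝ)..π, Real.sin t ^ (i + j + 2))) := by
    intro i j
    rw [setIntegral_indicator (RegD_measurable R), inter_eq_self_of_subset_right (RegD_mono hRM),
      hlow]
  set G : ℝ × ℝ → ℝ := fun c => 2 * (∫ r in Ioo 0 L, √(1 - Veff f h c.1 c.2 r)) -
    indicator (RegD R) (Gd R) c with hG
  have hGw : ∀ i j : ℕ, ∀ c : ℝ × ℝ, G c * (c.1 ^ i * c.2 ^ j) =
      2 * ((∫ r in Ioo 0 L, √(1 - Veff f h c.1 c.2 r)) * (c.1 ^ i * c.2 ^ j)) -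
      indicator (RegD R) (fun c => Gd R c * (c.1 ^ i * c.2 ^ j)) c := by
    intro i j c
    rw [hG]
    simp only
    by_cases hc : c ∈ RegD R
    · rw [indicator_of_mem hc, indicator_of_mem hc]
      ring
    · rw [indicator_of_notMem hc, indicator_of_notMem hc]
      ring
  have hint : ∀ i j : ℕ, IntegrableOn (fun c => G c * (c.1 ^ i * c.2 ^ j)) B := by
    intro i j
    simp_rw [hGw i j]
    exact ((hbox i j).1.const_mul 2).sub (hGi i j)
  have hval : ∀ i j : ℕ, ∫ c in B, G c * (c.1 ^ i * c.2 ^ j) =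
      2 * (Kc i j * Vm L f h i j) -
        2 * (Kc i j * (R ^ (i + j + 3) * ∫ t in (0 : ℝ)..π, Real.sin t ^ (i + j + 2))) := by
    intro i j
    simp_rw [hGw i j]
    rw [integral_sub ((hbox i j).1.const_mul 2) (hGi i j), integral_const_mul, (hbox i j).2, hGe]
  have hGnn : ∀ c ∈ B, 0 ≤ G c := by
    intro c hc
    rw [hG]
    simp only
    by_cases hcR : c ∈ RegD R
    · rw [indicator_of_mem hcR]
      linarith [hA c hcR]
    · rw [indicator_of_notMem hcR, sub_zero]
      have : 0 ≤ ∫ r in Ioo 0 L, √(1 - Veff f h c.1 c.2 r) :=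
        setIntegral_nonneg measurableSet_Ioo (fun _ _ => Real.sqrt_nonneg _)
      linarith
  have hpos : ∀ᵐ c ∂(volume.restrict B), 0 ≤ G c * (c.1 ^ a * c.2 ^ b) := by
    filter_upwards [ae_restrict_mem hBm] with c hc
    have h1 := hc.1.1
    have h2 := hc.2.1
    exact mul_nonneg (hGnn c hc) (by positivity)
  have hzero : ∫ c in B, G c * (c.1 ^ a * c.2 ^ b) = 0 := by
    apply le_antisymm
    · rw [hval a b]
      have := mul_le_mul_of_nonneg_left hV (Kc_pos a b).le
      linarith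
    · exact integral_nonneg_of_ae hpos
  have hae : (fun c => G c * (c.1 ^ a * c.2 ^ b)) =ᵐ[volume.restrict B] 0 :=
    (integral_eq_zero_iff_of_nonneg_ae hpos (hint a b)).1 hzero
  have hij : ∫ c in B, G c * (c.1 ^ i * c.2 ^ j) = 0 := by
    rw [← integral_zero (ℝ × ℝ) ℝ (μ := volume.restrict B)]
    apply integral_congr_ae
    filter_upwards [hae, ae_restrict_mem hBm] with c hc hcB
    have h1 := hcB.1.1
    have h2 := hcB.2.1
    have h3 : 0 < c.1 ^ a * c.2 ^ b := by positivity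
    have h4 : G c = 0 := by
      simp only [Pi.zero_apply] at hc
      exact (mul_eq_zero.1 hc).resolve_right h3.ne'
    rw [h4, zero_mul]
  rw [hval i j] at hij
  have h5 : 2 * (Kc i j * Vm L f h i j) =
      2 * (Kc i j * (R ^ (i + j + 3) * ∫ t in (0 : ℝ)..π, Real.sin t ^ (i + j + 2))) := by
    linarith
  have h6 := mul_left_cancel₀ (two_ne_zero) h5
  exact mul_left_cancel₀ (Kc_pos i j).ne' h6

theorem eq_of_moments {L : ℝ} {f h : ℝ → ℝ} (hf : IsProfileUS L f h) {g : ℕ → ℝ}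
    (hm : ∀ i j : ℕ, Vm L f h i j = g (i + j)) : ∀ r ∈ Icc 0 L, f r = h r := by
  have hfc : Continuous f := hf.pf.smooth.continuous
  have hhc : Continuous h := hf.ph.smooth.continuous
  have hL := hf.pf.pos
  have h1 : ∫ r in (0 : ℝ)..L, f r * h r * (f r - h r) ^ 2 = 0 := by
    have e : ∀ r, f r * h r * (f r - h r) ^ 2 = f r ^ (2 + 1) * h r ^ (0 + 1) -
        2 * (f r ^ (1 + 1) * h r ^ (1 + 1)) + f r ^ (0 + 1) * h r ^ (2 + 1) := by
      intro r
      ring
    simp_rw [e]
    have i1 : ∀ i j : ℕ, IntervalIntegrable (fun r => f r ^ i * h r ^ j) volume 0 L := fun i j =>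
      ((hfc.pow i).mul (hhc.pow j)).intervalIntegrable _ _
    rw [intervalIntegral.integral_add ((i1 _ _).sub ((i1 _ _).const_mul 2)) (i1 _ _),
      intervalIntegral.integral_sub (i1 _ _) ((i1 _ _).const_mul 2),
      intervalIntegral.integral_const_mul]
    have m1 := hm 2 0
    have m2 := hm 1 1
    have m3 := hm 0 2
    unfold Vm at m1 m2 m3
    rw [m1, m2, m3]
    norm_num
    ring
  have hc : Continuous fun r => f r * h r * (f r - h r) ^ 2 := by fun_prop
  have hin : ∀ r ∈ Ioo 0 L, f r = h r := by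
    intro r hr
    by_contra hne
    have hpos : 0 < ∫ r in (0 : ℝ)..L, f r * h r * (f r - h r) ^ 2 := by
      refine intervalIntegral.integral_pos hL hc.continuousOn ?_ ⟨r, Ioo_subset_Icc_self hr, ?_⟩
      · intro x hx
        rcases eq_or_lt_of_le hx.2 with hxL | hxL
        · have : f x = 0 := by
            have := hf.pf.odd_L 0
            rw [add_zero, sub_zero] at this
            rw [hxL]
            linarith
          rw [this]
          simp
        · have k1 := hf.pf.fpos x hx.1 hxL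
          have k2 := hf.ph.fpos x hx.1 hxL
          positivity
      · have k1 := hf.pf.fpos r hr.1 hr.2
        have k2 := hf.ph.fpos r hr.1 hr.2
        have k3 : 0 < (f r - h r) ^ 2 := by
          have : f r - h r ≠ 0 := sub_ne_zero.2 hne
          positivity
        positivity
    linarith
  have z1 : f 0 = 0 := by
    have := hf.pf.odd_zero 0
    rw [neg_zero] at this
    linarith
  have z2 : h 0 = 0 := by
    have := hf.ph.odd_zero 0
    rw [neg_zero] at this
    linarith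
  have z3 : f L = 0 := by
    have := hf.pf.odd_L 0
    rw [add_zero, sub_zero] at this
    linarith
  have z4 : h L = 0 := by
    have := hf.ph.odd_L 0
    rw [add_zero, sub_zero] at this
    linarith
  intro r hr
  rcases eq_or_lt_of_le hr.1 with h0 | h0
  · rw [← h0, z1, z2]
  rcases eq_or_lt_of_le hr.2 with h2 | h2
  · rw [h2, z3, z4]
  exact hin r ⟨h0, h2⟩

/-- If no periodic geodesic is shorter than the bound, then `f = h`. -/
theorem rigid {L : ℝ} {f h : ℝ → ℝ} (hf : IsProfileUS L f h) {n : ℕ} (hn : 2 ≤ n) (a b : ℕ)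
    (hno : ∀ (γ : ℝ → EuclideanSpace ℂ (Fin n) × ℝ) (T : ℝ), 0 < T →
      IsGeodesicUS L f h 1 γ → (∀ t, γ (t + T) = γ t) →
      (2 * π) ^ (a + b + 3) * (∫ r in (0 : ℝ)..L, f r ^ (a + 1) * h r ^ (b + 1)) ≤
        T ^ (a + b + 3) * ∫ t in (0 : ℝ)..π, Real.sin t ^ (a + b + 2)) :
    ∀ r ∈ Icc 0 L, f r = h r := by
  have hfc : Continuous f := hf.pf.smooth.continuous
  have hhc : Continuous h := hf.ph.smooth.continuous
  have hLpos := hf.pf.pos
  have hpi := Real.pi_pos
  set V : ℝ := ∫ r in (0 : ℝ)..L, f r ^ (a + 1) * h r ^ (b + 1) with hVdef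
  set W : ℝ := ∫ t in (0 : ℝ)..π, Real.sin t ^ (a + b + 2) with hWdef
  have hW : 0 < W := integral_sin_pow_pos _
  have hV : 0 < V := by
    refine intervalIntegral.intervalIntegral_pos_of_pos_on
      (((hfc.pow _).mul (hhc.pow _)).intervalIntegrable _ _) (fun x hx => ?_) hLpos
    exact mul_pos (pow_pos (hf.pf.fpos x hx.1 hx.2) _) (pow_pos (hf.ph.fpos x hx.1 hx.2) _)
  obtain ⟨R, hR, hRn⟩ : ∃ R : ℝ, 0 < R ∧ R ^ (a + b + 3) = V / W := by
    refine ⟨(V / W) ^ (((a + b + 3 : ℕ) : ℝ)⁻¹), Real.rpow_pos_of_pos (by positivity) _, ?_⟩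
    rw [Real.rpow_inv_natCast_pow (by positivity) (by omega)]
  have hge : ∀ (γ : ℝ → EuclideanSpace ℂ (Fin n) × ℝ) (T : ℝ), 0 < T →
      IsGeodesicUS L f h 1 γ → (∀ t, γ (t + T) = γ t) → 2 * π * R ≤ T := by
    intro γ T hT hγ hper
    have h1 := hno γ T hT hγ hper
    have h2 : (2 * π * R) ^ (a + b + 3) ≤ T ^ (a + b + 3) := by
      rw [mul_pow, hRn]
      have h3 : (2 * π) ^ (a + b + 3) * (V / W) = (2 * π) ^ (a + b + 3) * V / W := by ring
      rw [h3, div_le_iff₀ hW]
      exact h1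
    exact le_of_pow_le_pow_left₀ (by omega) hT.le h2
  have hA : ∀ c ∈ RegD R, Gd R c ≤ 2 * ∫ r in Ioo 0 L, √(1 - Veff f h c.1 c.2 r) := by
    intro c hc
    by_contra hcon
    push Not at hcon
    set A := 2 * ∫ r in Ioo 0 L, √(1 - Veff f h c.1 c.2 r) with hAdef
    have hA0 : 0 ≤ A := by
      have : 0 ≤ ∫ r in Ioo 0 L, √(1 - Veff f h c.1 c.2 r) :=
        setIntegral_nonneg measurableSet_Ioo (fun _ _ => Real.sqrt_nonneg _)
      rw [hAdef]
      linarith
    unfold Gd at hcon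
    set J := √(c.1 ^ 2 + c.2 ^ 2) with hJ
    have hJ0 : 0 ≤ J := Real.sqrt_nonneg _
    obtain ⟨R', h1, h2⟩ : ∃ R' : ℝ, R' < R ∧ A < 2 * π * (R' - J) := by
      refine ⟨R - (2 * π * (R - J) - A) / (4 * π), ?_, ?_⟩
      · have : 0 < (2 * π * (R - J) - A) / (4 * π) := div_pos (by linarith) (by positivity)
        linarith
      · have e : 2 * π * (R - (2 * π * (R - J) - A) / (4 * π) - J) =
            2 * π * (R - J) - (2 * π * (R - J) - A) / 2 := by
          field_simp
          ring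
        rw [e]
        linarith
    have h3 : J < R' := by
      have h4 : 0 < 2 * π * (R' - J) := hA0.trans_lt h2
      have h5 : 0 < R' - J := (mul_pos_iff_of_pos_left (by positivity)).1 h4
      linarith
    have hR' : 0 < R' := hJ0.trans_lt h3
    obtain ⟨hB, _⟩ := Act.action_bound hf hn hR' (fun γ T hT hγ hper => by
      have := hge γ T hT hγ hper
      have h6 : 2 * π * R' < 2 * π * R := by
        have : 0 < 2 * π := by positivity
        exact mul_lt_mul_of_pos_left h1 this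
      linarith)
    have := hB c ⟨hc.1, hc.2.1, h3⟩
    rw [← hJ, ← hAdef] at this
    linarith
  have hVm : Vm L f h a b ≤ R ^ (a + b + 3) * ∫ t in (0 : ℝ)..π, Real.sin t ^ (a + b + 2) := by
    rw [← hWdef, hRn, div_mul_cancel₀ _ hW.ne']
    exact le_rfl
  have hmom := moments hf hR hA hVm
  exact eq_of_moments hf (g := fun k => R ^ (k + 3) * ∫ t in (0 : ℝ)..π, Real.sin t ^ (k + 2))
    (fun i j => hmom i j)

end H804US.Rg
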