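import Pool.Agent.H804.US.Mn
import Pool.Graph.R_seed8.H738R3.CP.Main

/-!
# The action bound on the quarter disc
-/

open Real Set MeasureTheory Filter Topology
open scoped ContDiff
open Pool.Agent.H206R2.Rot2 (Veff well actW)
open Pool.Agent.H206R2
open H738CP
open H738CP.CL (crit_le)
open H738CP.CG (crit_ge)

namespace H804US.Act

open Mn (RegD Dd isOpen_RegD)

lemma actW_le {L : ℝ} {f h : ℝ → ℝ} (hf : IsProfileUS L f h) (c₁ c₂ s : ℝ) :
    actW L (Veff f h c₁ c₂) s ≤ 2 * ∫ r in Ioo 0 L, √(1 - Veff f h c₁ c₂ r) := by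
  rw [actW]
  refine mul_le_mul_of_nonneg_left ?_ (by norm_num)
  have hmeas : Measurable fun r => √(1 - Veff f h c₁ c₂ r) := by
    have h1 := hf.pf.smooth.continuous.measurable
    have h2 := hf.ph.smooth.continuous.measurable
    unfold Veff
    fun_prop
  have hb : ∀ r, |√(1 - Veff f h c₁ c₂ r)| ≤ 1 := by
    intro r
    rw [abs_of_nonneg (Real.sqrt_nonneg _)]
    exact Real.sqrt_le_one.2 (by unfold Veff; nlinarith [sq_nonneg (c₁ / f r), sq_nonneg (c₂ / h r)])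
  refine setIntegral_mono_set ?_ (Filter.Eventually.of_forall fun r => Real.sqrt_nonneg _)
    (Filter.Eventually.of_forall (H738CP.Main.well_subset _ s))
  exact Measure.integrableOn_of_bounded (by simp) hmeas.aestronglyMeasurable
      (Filter.Eventually.of_forall fun r => by simpa using hb r)

/-- If all periodic geodesics are longer than `2 π R`, the radial action is at least that of the round
sphere of radius `R`. -/
theorem action_bound {L : ℝ} {f h : ℝ → ℝ} (hf : IsProfileUS L f h) {n : ℕ} (hn : 2 ≤ n) {R : ℝ}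
    (hR : 0 < R)
    (hno : ∀ (γ : ℝ → EuclideanSpace ℂ (Fin n) × ℝ) (T : ℝ), 0 < T →
      IsGeodesicUS L f h 1 γ → (∀ t, γ (t + T) = γ t) → 2 * π * R < T) :
    (∀ c ∈ RegD R, 2 * π * (R - √(c.1 ^ 2 + c.2 ^ 2)) ≤
      2 * ∫ r in Ioo 0 L, √(1 - Veff f h c.1 c.2 r)) ∧
    ∃ r, 0 < r ∧ r < L ∧ R < f r ∧ R < h r := by
  have hfc : Continuous f := hf.pf.smooth.continuous
  have hhc : Continuous h := hf.ph.smooth.continuous
  have hLpos := hf.pf.pos
  have hpi := Real.pi_pos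
  have hPair := pair_of_profile hf
  obtain ⟨S₁, a₁, b₁, S₂, a₂, b₂, s₀, hS₁, hS₂, w₁, w₂, hs0, hsL, hfs, hhs⟩ :=
    St.structure_US hf hn hR hno
  have hEf : ∀ c, 0 ≤ c → c ≤ R → 2 * π * (R - c) ≤ Rot.actA L f c :=
    Rot2.Edge.rot_edge hf.pf (n := 2) le_rfl hR (fun γ T hT hγ hper => by
      obtain ⟨γ', hγ', hper'⟩ := Lift.lift_line hf hn hγ
      exact hno γ' T hT hγ' (hper' T hper))
  have hEh : ∀ c, 0 ≤ c → c ≤ R → 2 * π * (R - c) ≤ Rot.actA L h c :=
    Rot2.Edge.rot_edge hf.ph (n := 2) le_rfl hR (fun γ T hT hγ hper => by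
      obtain ⟨γ', hγ', hper'⟩ := Lift.lift_real hf hn hγ
      exact hno γ' T hT hγ' (hper' T hper))
  by_cases hneg : ∃ c ∈ RegD R, Dd L R f h s₀ c < 0
  swap
  · push Not at hneg
    refine ⟨fun c hc => ?_, s₀, hs0, hsL, hfs, hhs⟩
    have h1 := hneg c hc
    have h2 := actW_le hf c.1 c.2 s₀
    unfold Dd at h1
    linarith
  obtain ⟨c, hc, hDneg, hmin⟩ := Mn.exists_min hf hR hS₁ hS₂ w₁ w₂ hs0 hsL hfs hhs hEf hEh hneg
  unfold Dd at hDneg
  obtain ⟨hc1, hc2, hc3⟩ := id hc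
  set J : ℝ := √(c.1 ^ 2 + c.2 ^ 2) with hJ
  have hJ2 : J ^ 2 = c.1 ^ 2 + c.2 ^ 2 := Real.sq_sqrt (by positivity)
  have hJpos : 0 < J := Real.sqrt_pos.2 (by positivity)
  have hs1 : Veff f h c.1 c.2 s₀ < 1 := Mn.veff_lt hR hfs hhs hc3
  obtain ⟨p, q, hp, hps, hsq, hq, hVp, hVq, hw, hin⟩ := WS.well_spec hPair hc1 hc2 hs0 hsL hs1
  -- the target function
  have hΓ1 : HasDerivAt (fun x => (fun c : ℝ × ℝ => 2 * π * (R - √(c.1 ^ 2 + c.2 ^ 2))) (x, c.2))
      (-(2 * π * (c.1 / J))) c.1 := by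
    have h1 : HasDerivAt (fun x : ℝ => x ^ 2 + c.2 ^ 2) (2 * c.1) c.1 := by
      have := (hasDerivAt_pow 2 c.1).add_const (c.2 ^ 2)
      simpa using this
    have h2 := h1.sqrt (by positivity)
    have h3 := (h2.const_sub R).const_mul (2 * π)
    refine h3.congr_deriv ?_
    rw [← hJ]
    field_simp
  have hΓ2 : HasDerivAt (fun x => (fun c : ℝ × ℝ => 2 * π * (R - √(c.1 ^ 2 + c.2 ^ 2))) (c.1, x))
      (-(2 * π * (c.2 / J))) c.2 := by
    have h1 : HasDerivAt (fun x : ℝ => c.1 ^ 2 + x ^ 2) (2 * c.2) c.2 := by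
      have := (hasDerivAt_pow 2 c.2).const_add (c.1 ^ 2)
      simpa using this
    have h2 := h1.sqrt (by positivity)
    have h3 := (h2.const_sub R).const_mul (2 * π)
    refine h3.congr_deriv ?_
    rw [← hJ]
    field_simp
  have hscont : ContinuousAt (fun _ : ℝ × ℝ => s₀) c := continuousAt_const
  have hmin' : ∀ᶠ c' in 𝓝 c, actW L (Veff f h c.1 c.2) ((fun _ : ℝ × ℝ => s₀) c) -
      (fun c : ℝ × ℝ => 2 * π * (R - √(c.1 ^ 2 + c.2 ^ 2))) c ≤
      actW L (Veff f h c'.1 c'.2) ((fun _ : ℝ × ℝ => s₀) c') -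
      (fun c : ℝ × ℝ => 2 * π * (R - √(c.1 ^ 2 + c.2 ^ 2))) c' := by
    filter_upwards [(isOpen_RegD R).mem_nhds hc] with c' hc'
    exact hmin c' hc'
  obtain ⟨hint, hΦ1, hΦ2, hp', hq'⟩ := crit_le (s := fun _ => s₀)
    (Γ := fun c : ℝ × ℝ => 2 * π * (R - √(c.1 ^ 2 + c.2 ^ 2))) hPair hc1 hc2 hscont hΓ1 hΓ2 hmin'
    hp hps hsq hq hVp hVq hw hin
  obtain ⟨hΨ1, hΨ2⟩ := crit_ge (s := fun _ => s₀)
    (Γ := fun c : ℝ × ℝ => 2 * π * (R - √(c.1 ^ 2 + c.2 ^ 2))) hPair hc1 hc2 hscont hΓ1 hΓ2 hmin'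
    hp hps hsq hq hVp hVq hw hin hint hp' hq'
  have hE1 := le_antisymm hΦ1 hΨ1
  have hE2 := le_antisymm hΦ2 hΨ2
  have hpq : p < q := hps.trans hsq
  have hsubL : ∀ x ∈ Icc p q, 0 < x ∧ x < L := fun x hx => ⟨hp.trans_le hx.1, hx.2.trans_lt hq⟩
  have hfne : ∀ x ∈ Icc p q, f x ≠ 0 := fun x hx =>
    (hf.pf.fpos x (hsubL x hx).1 (hsubL x hx).2).ne'
  have hhne : ∀ x ∈ Icc p q, h x ≠ 0 := fun x hx =>
    (hf.ph.fpos x (hsubL x hx).1 (hsubL x hx).2).ne'
  have hVsm : ContDiffOn ℝ ∞ (Veff f h c.1 c.2) (Ioo 0 L) := by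
    have h1 : ContDiffOn ℝ ∞ (fun r => c.1 / f r) (Ioo 0 L) :=
      contDiffOn_const.div hf.pf.smooth.contDiffOn fun x hx => (hf.pf.fpos x hx.1 hx.2).ne'
    have h2 : ContDiffOn ℝ ∞ (fun r => c.2 / h r) (Ioo 0 L) :=
      contDiffOn_const.div hf.ph.smooth.contDiffOn fun x hx => (hf.ph.fpos x hx.1 hx.2).ne'
    exact (h1.pow 2).add (h2.pow 2)
  obtain ⟨r, T, hT, hTeq, hr, hrI, hr2, hr1, hrT, hrint⟩ :=
    Rot2.TH.oscillator hp hpq hq hVsm hVp hVq hp' hq' hin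
  have hrpos : ∀ t, 0 < r t ∧ r t < L := fun t => hsubL (r t) ⟨(hrI t).1, (hrI t).2⟩
  obtain ⟨θ₁, hθ₁, hθ₁d, hθ₁T⟩ := H738CP.Main.angle2 (c := c.1) (d := J - c.1) hr hrI hf.pf.smooth
    hfne hf.ph.smooth hhne hrT
  obtain ⟨θ₂, hθ₂, hθ₂d, hθ₂T⟩ := H738CP.Main.angle2 (c := c.1) (d := -(J + c.1)) hr hrI
    hf.pf.smooth hfne hf.ph.smooth hhne hrT
  have hA1 : ∫ t in (0 : ℝ)..T, c.1 / f (r t) ^ 2 = 2 * π * (c.1 / J) := by
    rw [hrint (fun x => c.1 / f x ^ 2)
      (continuousOn_const.div (hfc.continuousOn.pow 2) fun x hx => pow_ne_zero 2 (hfne x hx))]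
    simp only [div_div]
    exact hE1
  have hA2 : ∫ t in (0 : ℝ)..T, c.2 / h (r t) ^ 2 = 2 * π * (c.2 / J) := by
    rw [hrint (fun x => c.2 / h x ^ 2)
      (continuousOn_const.div (hhc.continuousOn.pow 2) fun x hx => pow_ne_zero 2 (hhne x hx))]
    simp only [div_div]
    exact hE2
  have hA3 : ∀ d : ℝ, ∫ t in (0 : ℝ)..T, d / h (r t) ^ 2 = 2 * π * (d / J) := by
    intro d
    have e : ∀ t, d / h (r t) ^ 2 = (d / c.2) * (c.2 / h (r t) ^ 2) := by
      intro t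
      have := hhne (r t) ⟨(hrI t).1, (hrI t).2⟩
      field_simp
    simp only [e]
    rw [intervalIntegral.integral_const_mul, hA2]
    field_simp
  -- the length of one oscillation
  have hTlt : T < 2 * π * R := by
    have e : ∀ x ∈ Ioo p q, 1 / √(1 - Veff f h c.1 c.2 x) = √(1 - Veff f h c.1 c.2 x)
        + (c.1 * (c.1 / (f x ^ 2 * √(1 - Veff f h c.1 c.2 x)))
        + c.2 * (c.2 / (h x ^ 2 * √(1 - Veff f h c.1 c.2 x)))) := by
      intro x hx
      have hx1 : 0 < 1 - Veff f h c.1 c.2 x := by linarith [hin x hx]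
      have hsq := Real.sq_sqrt hx1.le
      have hsp := Real.sqrt_pos.2 hx1
      have hfx := hfne x ⟨hx.1.le, hx.2.le⟩
      have hhx := hhne x ⟨hx.1.le, hx.2.le⟩
      have hVx : Veff f h c.1 c.2 x = (c.1 / f x) ^ 2 + (c.2 / h x) ^ 2 := rfl
      set y := √(1 - Veff f h c.1 c.2 x) with hy
      have h3 : y ^ 2 = 1 - ((c.1 / f x) ^ 2 + (c.2 / h x) ^ 2) := by rw [hsq, hVx]
      have h4 : 1 = y ^ 2 + (c.1 ^ 2 / f x ^ 2 + c.2 ^ 2 / h x ^ 2) := by
        rw [h3, div_pow, div_pow]; ring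
      have h5 : 1 / y = (y ^ 2 + (c.1 ^ 2 / f x ^ 2 + c.2 ^ 2 / h x ^ 2)) / y := by rw [← h4]
      rw [h5]
      field_simp
    have hbd : ∀ {g : ℝ → ℝ} (d : ℝ), Continuous g → (∀ x ∈ Icc p q, g x ≠ 0) →
        IntegrableOn (fun x => d / (g x ^ 2 * √(1 - Veff f h c.1 c.2 x))) (Ioo p q) := by
      intro g d hg hg0
      have hcont : ContinuousOn (fun x => d / g x ^ 2) (Icc p q) :=
        continuousOn_const.div (hg.continuousOn.pow 2) fun x hx => pow_ne_zero 2 (hg0 x hx)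
      obtain ⟨M, hM⟩ := isCompact_Icc.exists_bound_of_continuousOn hcont
      have h1 : IntegrableOn (fun x => (d / g x ^ 2) * (1 / √(1 - Veff f h c.1 c.2 x)))
          (Ioo p q) := by
        refine Integrable.bdd_mul (c := M) hint
          ((hcont.mono Ioo_subset_Icc_self).aestronglyMeasurable measurableSet_Ioo) ?_
        exact (ae_restrict_iff' measurableSet_Ioo).2 (Filter.Eventually.of_forall fun x hx =>
          hM x (Ioo_subset_Icc_self hx))
      refine h1.congr_fun (fun x _ => ?_) measurableSet_Ioo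
      simp only [mul_one_div, div_div]
    have i1 := hbd c.1 hfc hfne
    have i2 := hbd c.2 hhc hhne
    have i0 : IntegrableOn (fun x => √(1 - Veff f h c.1 c.2 x)) (Ioo p q) := by
      have h1 := (hint.sub ((i1.const_mul c.1).add (i2.const_mul c.2)))
      refine h1.congr_fun (fun x hx => ?_) measurableSet_Ioo
      simp only [Pi.sub_apply, Pi.add_apply]
      linarith [e x hx]
    have h1 : ∫ x in Ioo p q, 1 / √(1 - Veff f h c.1 c.2 x) =
        (∫ x in Ioo p q, √(1 - Veff f h c.1 c.2 x)) +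
        (c.1 * (∫ x in Ioo p q, c.1 / (f x ^ 2 * √(1 - Veff f h c.1 c.2 x))) +
        c.2 * (∫ x in Ioo p q, c.2 / (h x ^ 2 * √(1 - Veff f h c.1 c.2 x)))) := by
      have j12 : IntegrableOn (fun x => c.1 * (c.1 / (f x ^ 2 * √(1 - Veff f h c.1 c.2 x)))
          + c.2 * (c.2 / (h x ^ 2 * √(1 - Veff f h c.1 c.2 x)))) (Ioo p q) :=
        (i1.const_mul c.1).add (i2.const_mul c.2)
      rw [setIntegral_congr_fun measurableSet_Ioo e, integral_add i0 j12,
        integral_add (i1.const_mul c.1) (i2.const_mul c.2), integral_const_mul, integral_const_mul]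
    have h2 : actW L (Veff f h c.1 c.2) s₀ = 2 * ∫ x in Ioo p q, √(1 - Veff f h c.1 c.2 x) := by
      rw [actW, hw]
    rw [h2] at hDneg
    rw [hTeq, h1]
    have g1 : c.1 * (2 * ∫ x in Ioo p q, c.1 / (f x ^ 2 * √(1 - Veff f h c.1 c.2 x))) =
        c.1 * (2 * π * (c.1 / J)) := by rw [hE1]
    have g2 : c.2 * (2 * ∫ x in Ioo p q, c.2 / (h x ^ 2 * √(1 - Veff f h c.1 c.2 x))) =
        c.2 * (2 * π * (c.2 / J)) := by rw [hE2]
    have g3 : c.1 * (2 * π * (c.1 / J)) + c.2 * (2 * π * (c.2 / J)) = 2 * π * J := by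
      have : c.1 * (2 * π * (c.1 / J)) + c.2 * (2 * π * (c.2 / J)) =
          2 * π * ((c.1 ^ 2 + c.2 ^ 2) / J) := by field_simp
      rw [this, ← hJ2]
      field_simp
    nlinarith
  -- the closed geodesic
  obtain ⟨γ, hγ, hper⟩ := GP.geodesic_of_planarUS hf hn (P := c.1) (Q := c.2) (J := J) (T := T) hc1
    hc2.le hJ hr hθ₁ hθ₂ hrpos (fun t => by
      have hfx := hfne (r t) ⟨(hrI t).1, (hrI t).2⟩
      have hhx := hhne (r t) ⟨(hrI t).1, (hrI t).2⟩
      have d1 : HasDerivAt (fun r => c.1 / f r) (-(c.1 * deriv f (r t)) / f (r t) ^ 2) (r t) := by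
        have := (hasDerivAt_const (r t) c.1).div
          ((hf.pf.smooth.differentiable (by simp)).differentiableAt (x := r t)).hasDerivAt hfx
        refine this.congr_deriv ?_
        ring
      have d2 : HasDerivAt (fun r => c.2 / h r) (-(c.2 * deriv h (r t)) / h (r t) ^ 2) (r t) := by
        have := (hasDerivAt_const (r t) c.2).div
          ((hf.ph.smooth.differentiable (by simp)).differentiableAt (x := r t)).hasDerivAt hhx
        refine this.congr_deriv ?_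
        ring
      have d3 : HasDerivAt (Veff f h c.1 c.2) (2 * (c.1 / f (r t)) * (-(c.1 * deriv f (r t)) / f (r t) ^ 2)
          + 2 * (c.2 / h (r t)) * (-(c.2 * deriv h (r t)) / h (r t) ^ 2)) (r t) := by
        have := (d1.pow 2).add (d2.pow 2)
        refine this.congr_deriv ?_
        norm_num
      rw [hr2, d3.deriv]
      field_simp
      ring)
    (fun t => hθ₁d t) (fun t => by rw [hθ₂d t]; ring)
    (fun t => by rw [hr1]; ring) hrT
    (fun t => by
      rw [hθ₁T, hA1, hA3]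
      field_simp
      ring)
    (Or.inr (fun t => by
      rw [hθ₂T, hA1, hA3]
      field_simp
      ring))
  exact absurd (hno γ T hT hγ hper) (not_lt.2 hTlt.le)

end H804US.Act
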