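import Pool.Graph.R_seed8.H738R3.CP.Defs
import Pool.Graph.R_seed8.H206R2.Rot2.Edge

/-!
# `U(n)`-invariant metrics on `S^{2n}`: definitions

A `U(n)`-invariant metric on `S^{2n} ⊂ ℂ^n × ℝ` is `dr² + f(r)² θ² + h(r)² g_hor`, `0 ≤ r ≤ L`, where `r`
is the distance from the first pole, `θ` is the contact form of the unit sphere `S^{2n-1} ⊂ ℂ^n` and
`g_hor` its horizontal metric (`θ² + g_hor` is the round metric), and `L` the distance of the poles.  It is
smooth exactly when `f`, `h` extend to smooth functions on `ℝ`, odd about `0` and about `L`, positive on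
`(0, L)`, with derivative `1` at `0` and `-1` at `L`.
-/

open Real Set MeasureTheory
open scoped ContDiff

namespace H804US

open H738CP

/-- The pairs of profile functions of smooth metrics `dr² + f(r)² θ² + h(r)² g_hor` on `S^{2n}`. -/
structure IsProfileUS (L : ℝ) (f h : ℝ → ℝ) : Prop where
  pf : Pool.Agent.H206R2.Rot.IsProfile L f
  ph : Pool.Agent.H206R2.Rot.IsProfile L h

/-- The point of `S^{2n} ⊂ ℂ^n × ℝ` at distance `r` from the first pole in direction `z ∈ S^{2n-1}`, for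
`0 ≤ r ≤ L`; for all real `r` by continuing the meridian. -/
noncomputable def spt {n : ℕ} (L r : ℝ) (z : EuclideanSpace ℂ (Fin n)) :
    EuclideanSpace ℂ (Fin n) × ℝ :=
  (((Real.sin (π * r / L) : ℝ) : ℂ) • z, Real.cos (π * r / L))

/-- `γ` is a geodesic of speed `v` of the metric `dr² + f(r)² θ² + h(r)² g_hor` on `S^{2n}`, written in
extended coordinates `(r, z)`, `z ∈ S^{2n-1} ⊂ ℂ^n`. -/
def IsGeodesicUS {n : ℕ} (L : ℝ) (f h : ℝ → ℝ) (v : ℝ)
    (γ : ℝ → EuclideanSpace ℂ (Fin n) × ℝ) : Prop :=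
  ∃ (r : ℝ → ℝ) (z : ℝ → EuclideanSpace ℂ (Fin n)),
    ContDiff ℝ 2 r ∧ ContDiff ℝ 2 z ∧ (∀ t, ‖z t‖ = 1) ∧ (∀ t, γ t = spt L (r t) (z t)) ∧
    (∀ t, deriv (deriv r) t = f (r t) * deriv f (r t) * hopf z t ^ 2
      + h (r t) * deriv h (r t) * ‖hor z t‖ ^ 2) ∧
    (∃ P : ℝ, ∀ t, f (r t) ^ 2 * hopf z t = P) ∧
    (∀ t, ((h (r t) ^ 2 : ℝ) : ℂ) • (deriv (hor z) t + ((‖hor z t‖ ^ 2 : ℝ) : ℂ) • z t)
      + ((2 * h (r t) * deriv h (r t) * deriv r t : ℝ) : ℂ) • hor z t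
      + (((2 * f (r t) ^ 2 - h (r t) ^ 2) * hopf z t : ℝ) * Complex.I) • hor z t = 0) ∧
    (∀ t, deriv r t ^ 2 + f (r t) ^ 2 * hopf z t ^ 2 + h (r t) ^ 2 * ‖hor z t‖ ^ 2 = v ^ 2)

theorem pair_of_profile {L : ℝ} {f h : ℝ → ℝ} (hf : IsProfileUS L f h) : Pair L f h := by
  refine ⟨hf.pf.pos, hf.pf.smooth, hf.ph.smooth, hf.pf.fpos, hf.ph.fpos, ?_, ?_⟩
  · left
    have := hf.pf.odd_zero 0
    rw [neg_zero] at this
    linarith
  · left
    have := hf.pf.odd_L 0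
    rw [add_zero, sub_zero] at this
    linarith

end H804US
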