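import Pool.Graph.R_seed8.H738R3.CP.GP
import Pool.Agent.H804.US.Defs

/-!
# Closed geodesics from planar solutions
-/

open Real Set MeasureTheory Filter Topology
open scoped ContDiff
open Pool.Agent.H206R2.Rot2 (Veff well actW)
open H738CP H738CP.GP

namespace H804US.GP

/-- GP: closed geodesics from planar solutions with both constants. -/
theorem geodesic_of_planarUS {L : ℝ} {f h : ℝ → ℝ} (hf : IsProfileUS L f h) {n : ℕ} (hn : 2 ≤ n)
    {r θ₁ θ₂ : ℝ → ℝ} {P Q J T : ℝ} (hP : 0 < P) (hQ : 0 ≤ Q) (hJ : J = √(P ^ 2 + Q ^ 2))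
    (hr : ContDiff ℝ 2 r) (hθ₁ : ContDiff ℝ 2 θ₁) (hθ₂ : ContDiff ℝ 2 θ₂)
    (hpos : ∀ t, 0 < r t ∧ r t < L)
    (h1 : ∀ t, deriv (deriv r) t = f (r t) * deriv f (r t) * (P / f (r t) ^ 2) ^ 2
      + h (r t) * deriv h (r t) * (Q / h (r t) ^ 2) ^ 2)
    (h2 : ∀ t, deriv θ₁ t = P / f (r t) ^ 2 + (J - P) / h (r t) ^ 2)
    (h3 : ∀ t, deriv θ₂ t = P / f (r t) ^ 2 - (J + P) / h (r t) ^ 2)
    (h4 : ∀ t, deriv r t ^ 2 + Veff f h P Q (r t) = 1)
    (hrT : ∀ t, r (t + T) = r t) (hθ₁T : ∀ t, θ₁ (t + T) = θ₁ t + 2 * π)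
    (hθ₂T : Q = 0 ∨ ∀ t, θ₂ (t + T) = θ₂ t - 2 * π) :
    ∃ γ : ℝ → EuclideanSpace ℂ (Fin n) × ℝ, IsGeodesicUS L f h 1 γ ∧
      ∀ t, γ (t + T) = γ t := by
  -- the frame
  obtain ⟨e₀, e₁, h00, h11, h01⟩ : ∃ e₀ e₁ : EuclideanSpace ℂ (Fin n),
      inner ℂ e₀ e₀ = (1 : ℂ) ∧ inner ℂ e₁ e₁ = (1 : ℂ) ∧ inner ℂ e₀ e₁ = (0 : ℂ) := by
    refine ⟨EuclideanSpace.single ⟨0, by omega⟩ 1, EuclideanSpace.single ⟨1, by omega⟩ 1,
      ?_, ?_, ?_⟩
    · simp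
    · simp
    · rw [EuclideanSpace.inner_single_left]
      simp
  -- the constants
  have hJ2 : J ^ 2 = P ^ 2 + Q ^ 2 := by rw [hJ, Real.sq_sqrt (by positivity)]
  have hJP : P ≤ J := by
    rw [hJ]
    exact Real.le_sqrt_of_sq_le (by nlinarith [sq_nonneg Q])
  have hJ0 : 0 < J := lt_of_lt_of_le hP hJP
  obtain ⟨C, s, hC2, hs2, hsQ⟩ : ∃ C s : ℝ, C ^ 2 = (J + P) / (2 * J) ∧ s ^ 2 = (J - P) / (2 * J) ∧
      (Q = 0 → s = 0) := by
    refine ⟨√((J + P) / (2 * J)), √((J - P) / (2 * J)), ?_, ?_, ?_⟩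
    · exact Real.sq_sqrt (by positivity)
    · exact Real.sq_sqrt (div_nonneg (by linarith) (by positivity))
    · intro hQ0
      have : J = P := by
        rw [hJ, hQ0]
        simp [Real.sqrt_sq hP.le]
      rw [this]
      simp
  have hCs : C ^ 2 + s ^ 2 = 1 := by rw [hC2, hs2]; field_simp; ring
  -- notation
  have hfp : ∀ t, 0 < f (r t) := fun t => hf.pf.fpos _ (hpos t).1 (hpos t).2
  have hhp : ∀ t, 0 < h (r t) := fun t => hf.ph.fpos _ (hpos t).1 (hpos t).2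
  set D : ℝ → ℝ := fun t => 2 * J / h (r t) ^ 2 with hD
  set E1 : ℝ → ℂ := fun t => Complex.exp ((θ₁ t : ℂ) * Complex.I) with hE1
  set E2 : ℝ → ℂ := fun t => Complex.exp ((θ₂ t : ℂ) * Complex.I) with hE2
  set z : ℝ → EuclideanSpace ℂ (Fin n) := fun t => ((C : ℂ) * E1 t) • e₀ + ((s : ℂ) * E2 t) • e₁
    with hz
  have dr : ∀ t, HasDerivAt r (deriv r t) t := fun t =>
    (hr.differentiable (by norm_num) t).hasDerivAt
  have dθ₁ : ∀ t, HasDerivAt θ₁ (deriv θ₁ t) t := fun t =>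
    (hθ₁.differentiable (by norm_num) t).hasDerivAt
  have dθ₂ : ∀ t, HasDerivAt θ₂ (deriv θ₂ t) t := fun t =>
    (hθ₂.differentiable (by norm_num) t).hasDerivAt
  have dh : ∀ t, HasDerivAt (fun t => h (r t)) (deriv h (r t) * deriv r t) t := fun t =>
    ((hf.ph.smooth.differentiable (by simp)) (r t)).hasDerivAt.comp t (dr t)
  have dE1 : ∀ t, HasDerivAt E1 (E1 t * (((deriv θ₁ t : ℝ) : ℂ) * Complex.I)) t := fun t =>
    hasDeriv_E (dθ₁ t)
  have dE2 : ∀ t, HasDerivAt E2 (E2 t * (((deriv θ₂ t : ℝ) : ℂ) * Complex.I)) t := fun t =>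
    hasDeriv_E (dθ₂ t)
  have dz : ∀ t, HasDerivAt z (((C : ℂ) * (E1 t * (((deriv θ₁ t : ℝ) : ℂ) * Complex.I))) • e₀ +
      ((s : ℂ) * (E2 t * (((deriv θ₂ t : ℝ) : ℂ) * Complex.I))) • e₁) t := fun t =>
    (((dE1 t).const_mul (C : ℂ)).smul_const e₀).add (((dE2 t).const_mul (s : ℂ)).smul_const e₁)
  -- the Hopf component
  have hhopf : ∀ t, hopf z t = P / f (r t) ^ 2 := by
    intro t
    have e : inner ℂ (z t) (deriv z t) =
        ((C ^ 2 * deriv θ₁ t + s ^ 2 * deriv θ₂ t : ℝ) : ℂ) * Complex.I := by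
      rw [(dz t).deriv, hz]
      simp only
      rw [inner_ab h00 h11 h01, map_mul, map_mul, Complex.conj_ofReal, Complex.conj_ofReal]
      have q1 : (starRingEnd ℂ) (E1 t) * E1 t = 1 := conj_E _
      have q2 : (starRingEnd ℂ) (E2 t) * E2 t = 1 := conj_E _
      push_cast
      linear_combination ((C : ℂ) ^ 2 * ((deriv θ₁ t : ℝ) : ℂ) * Complex.I) * q1 +
        ((s : ℂ) ^ 2 * ((deriv θ₂ t : ℝ) : ℂ) * Complex.I) * q2
    unfold hopf
    rw [e, Complex.im_ofReal_mul, Complex.I_im, mul_one, h2, h3, hC2, hs2]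
    have := (hfp t).ne'
    have := (hhp t).ne'
    field_simp
    ring
  -- the horizontal component
  have hw1 : ∀ t, deriv θ₁ t - P / f (r t) ^ 2 = s ^ 2 * D t := by
    intro t
    rw [h2, hs2, hD]
    have := (hhp t).ne'
    field_simp
    ring
  have hw2 : ∀ t, deriv θ₂ t - P / f (r t) ^ 2 = -(C ^ 2 * D t) := by
    intro t
    rw [h3, hC2, hD]
    have := (hhp t).ne'
    field_simp
    ring
  have hhor : hor z = fun t => ((Complex.I * (s : ℂ) ^ 2 * (C : ℂ)) * ((D t : ℂ) * E1 t)) • e₀ +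
      (-(Complex.I * (s : ℂ) * (C : ℂ) ^ 2) * ((D t : ℂ) * E2 t)) • e₁ := by
    funext t
    unfold hor
    rw [(dz t).deriv, hhopf t, hz]
    simp only
    have q1 : ((deriv θ₁ t : ℝ) : ℂ) - ((P / f (r t) ^ 2 : ℝ) : ℂ) = (s : ℂ) ^ 2 * (D t : ℂ) := by
      exact_mod_cast congrArg (fun x : ℝ => (x : ℂ)) (hw1 t)
    have q2 : ((deriv θ₂ t : ℝ) : ℂ) - ((P / f (r t) ^ 2 : ℝ) : ℂ) = -((C : ℂ) ^ 2 * (D t : ℂ)) := by
      exact_mod_cast congrArg (fun x : ℝ => (x : ℂ)) (hw2 t)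
    have c1 : (C : ℂ) * (E1 t * (((deriv θ₁ t : ℝ) : ℂ) * Complex.I)) -
        ((P / f (r t) ^ 2 : ℝ) : ℂ) * Complex.I * ((C : ℂ) * E1 t) =
        (Complex.I * (s : ℂ) ^ 2 * (C : ℂ)) * ((D t : ℂ) * E1 t) := by
      linear_combination ((C : ℂ) * E1 t * Complex.I) * q1
    have c2 : (s : ℂ) * (E2 t * (((deriv θ₂ t : ℝ) : ℂ) * Complex.I)) -
        ((P / f (r t) ^ 2 : ℝ) : ℂ) * Complex.I * ((s : ℂ) * E2 t) =
        -(Complex.I * (s : ℂ) * (C : ℂ) ^ 2) * ((D t : ℂ) * E2 t) := by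
      linear_combination ((s : ℂ) * E2 t * Complex.I) * q2
    rw [← c1, ← c2]
    module
  have hN : ∀ t, ‖hor z t‖ ^ 2 = D t ^ 2 * s ^ 2 * C ^ 2 := by
    intro t
    rw [hhor]
    simp only
    rw [norm_ab h00 h11 h01]
    simp only [norm_mul, norm_neg, Complex.norm_I, norm_pow, Complex.norm_real, Real.norm_eq_abs,
      sq_abs, one_mul, mul_pow]
    have q1 : ‖E1 t‖ = 1 := norm_E _
    have q2 : ‖E2 t‖ = 1 := norm_E _
    rw [q1, q2]
    linear_combination (D t ^ 2 * s ^ 2 * C ^ 2) * hCs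
  have hNQ : ∀ t, ‖hor z t‖ ^ 2 = (Q / h (r t) ^ 2) ^ 2 := by
    intro t
    have := (hhp t).ne'
    rw [hN t, hs2, hC2, hD]
    have hQ2 : Q ^ 2 = J ^ 2 - P ^ 2 := by linarith
    rw [div_pow Q, hQ2]
    field_simp
    ring
  -- derivative of the horizontal component
  have dD : ∀ t, HasDerivAt D (-(4 * J * (deriv h (r t) * deriv r t)) / h (r t) ^ 3) t := by
    intro t
    have hne := (hhp t).ne'
    have h5 := ((dh t).pow 2)
    have h6 := (hasDerivAt_const t (2 * J)).div h5 (pow_ne_zero 2 hne)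
    refine h6.congr_deriv ?_
    simp only [Pi.pow_apply]
    field_simp
    ring
  have dhor : ∀ t, HasDerivAt (hor z)
      (((Complex.I * (s : ℂ) ^ 2 * (C : ℂ)) *
        (((-(4 * J * (deriv h (r t) * deriv r t)) / h (r t) ^ 3 : ℝ) : ℂ) * E1 t +
          (D t : ℂ) * (E1 t * (((deriv θ₁ t : ℝ) : ℂ) * Complex.I)))) • e₀ +
      (-(Complex.I * (s : ℂ) * (C : ℂ) ^ 2) *
        (((-(4 * J * (deriv h (r t) * deriv r t)) / h (r t) ^ 3 : ℝ) : ℂ) * E2 t +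
          (D t : ℂ) * (E2 t * (((deriv θ₂ t : ℝ) : ℂ) * Complex.I)))) • e₁) t := by
    intro t
    rw [hhor]
    exact ((((dD t).ofReal_comp.mul (dE1 t)).const_mul _).smul_const e₀).add
      ((((dD t).ofReal_comp.mul (dE2 t)).const_mul _).smul_const e₁)
  refine ⟨fun t => spt L (r t) (z t), ⟨r, z, hr, ?_, ?_, fun _ => rfl, ?_, ⟨P, ?_⟩, ?_, ?_⟩, ?_⟩
  · -- smoothness
    have hcE : ∀ θ : ℝ → ℝ, ContDiff ℝ 2 θ →
        ContDiff ℝ 2 (fun t => Complex.exp ((θ t : ℂ) * Complex.I)) := by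
      intro θ hθ
      exact ((Complex.ofRealCLM.contDiff.comp hθ).mul contDiff_const).cexp
    exact ((contDiff_const.mul (hcE θ₁ hθ₁)).smul contDiff_const).add
      ((contDiff_const.mul (hcE θ₂ hθ₂)).smul contDiff_const)
  · intro t
    have h5 : ‖z t‖ ^ 2 = 1 := by
      rw [hz]
      simp only
      rw [norm_ab h00 h11 h01]
      simp only [norm_mul, Complex.norm_real, Real.norm_eq_abs, mul_pow, sq_abs]
      have q1 : ‖E1 t‖ = 1 := norm_E _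
      have q2 : ‖E2 t‖ = 1 := norm_E _
      rw [q1, q2]
      linarith
    have h6 : (0 : ℝ) ≤ ‖z t‖ := norm_nonneg _
    nlinarith
  · intro t
    rw [h1, hhopf, hNQ]
  · intro t
    rw [hhopf]
    have := (hfp t).ne'
    field_simp
  · intro t
    have hne := (hhp t).ne'
    have hfne := (hfp t).ne'
    have R1 : h (r t) ^ 2 * (-(4 * J * (deriv h (r t) * deriv r t)) / h (r t) ^ 3) +
        2 * h (r t) * deriv h (r t) * deriv r t * D t = 0 := by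
      rw [hD]
      field_simp
      ring
    have R2 : -(h (r t) ^ 2 * deriv θ₁ t) + h (r t) ^ 2 * D t * C ^ 2 -
        (2 * f (r t) ^ 2 - h (r t) ^ 2) * hopf z t = 0 := by
      rw [hhopf, h2, hC2, hD]
      field_simp
      ring
    have R3 : h (r t) ^ 2 * deriv θ₂ t + h (r t) ^ 2 * D t * s ^ 2 +
        (2 * f (r t) ^ 2 - h (r t) ^ 2) * hopf z t = 0 := by
      rw [hhopf, h3, hs2, hD]
      field_simp
      ring
    rw [(dhor t).deriv, hN t, hhor, hz]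
    simp only
    rw [← hz]
    set D' : ℝ := -(4 * J * (deriv h (r t) * deriv r t)) / h (r t) ^ 3 with hD'
    set H := hopf z t with hH
    set a1 := deriv θ₁ t
    set a2 := deriv θ₂ t
    set hh := h (r t)
    set ff := f (r t)
    set k : ℝ := 2 * hh * deriv h (r t) * deriv r t with hk
    have R1' : (hh : ℂ) ^ 2 * (D' : ℂ) + (k : ℂ) * (D t : ℂ) = 0 := by exact_mod_cast R1
    have R2' : -((hh : ℂ) ^ 2 * (a1 : ℂ)) + (hh : ℂ) ^ 2 * (D t : ℂ) * (C : ℂ) ^ 2 -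
        (2 * (ff : ℂ) ^ 2 - (hh : ℂ) ^ 2) * (H : ℂ) = 0 := by exact_mod_cast R2
    have R3' : (hh : ℂ) ^ 2 * (a2 : ℂ) + (hh : ℂ) ^ 2 * (D t : ℂ) * (s : ℂ) ^ 2 +
        (2 * (ff : ℂ) ^ 2 - (hh : ℂ) ^ 2) * (H : ℂ) = 0 := by exact_mod_cast R3
    have c1 : ((hh ^ 2 : ℝ) : ℂ) * (((Complex.I * (s : ℂ) ^ 2 * (C : ℂ)) *
        ((D' : ℂ) * E1 t + (D t : ℂ) * (E1 t * ((a1 : ℂ) * Complex.I)))) +
        ((D t ^ 2 * s ^ 2 * C ^ 2 : ℝ) : ℂ) * ((C : ℂ) * E1 t)) +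
        (k : ℂ) * ((Complex.I * (s : ℂ) ^ 2 * (C : ℂ)) * ((D t : ℂ) * E1 t)) +
        (((2 * ff ^ 2 - hh ^ 2) * H : ℝ) : ℂ) * Complex.I *
          ((Complex.I * (s : ℂ) ^ 2 * (C : ℂ)) * ((D t : ℂ) * E1 t)) = 0 := by
      push_cast
      linear_combination ((s : ℂ) ^ 2 * C * E1 t * Complex.I) * R1' +
        ((s : ℂ) ^ 2 * C * E1 t * D t) * R2' +
        ((s : ℂ) ^ 2 * C * E1 t * D t * ((hh : ℂ) ^ 2 * a1 + (2 * (ff : ℂ) ^ 2 - (hh : ℂ) ^ 2) * H)) *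
          Complex.I_sq
    have c2 : ((hh ^ 2 : ℝ) : ℂ) * ((-(Complex.I * (s : ℂ) * (C : ℂ) ^ 2) *
        ((D' : ℂ) * E2 t + (D t : ℂ) * (E2 t * ((a2 : ℂ) * Complex.I)))) +
        ((D t ^ 2 * s ^ 2 * C ^ 2 : ℝ) : ℂ) * ((s : ℂ) * E2 t)) +
        (k : ℂ) * (-(Complex.I * (s : ℂ) * (C : ℂ) ^ 2) * ((D t : ℂ) * E2 t)) +
        (((2 * ff ^ 2 - hh ^ 2) * H : ℝ) : ℂ) * Complex.I *
          (-(Complex.I * (s : ℂ) * (C : ℂ) ^ 2) * ((D t : ℂ) * E2 t)) = 0 := by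
      push_cast
      linear_combination (-((s : ℂ) * C ^ 2 * E2 t * Complex.I)) * R1' +
        ((s : ℂ) * C ^ 2 * E2 t * D t) * R3' -
        ((s : ℂ) * C ^ 2 * E2 t * D t * ((hh : ℂ) ^ 2 * a2 + (2 * (ff : ℂ) ^ 2 - (hh : ℂ) ^ 2) * H)) *
          Complex.I_sq
    have c5 := congrArg₂ (fun x y : ℂ => x • e₀ + y • e₁) c1 c2
    simp only [zero_smul, add_zero] at c5
    refine Eq.trans ?_ c5
    module
  · intro t
    have h5 := h4 t
    unfold Veff at h5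
    rw [hhopf, hNQ]
    have g1 := (hhp t).ne'
    have g2 := (hfp t).ne'
    have e1 : f (r t) ^ 2 * (P / f (r t) ^ 2) ^ 2 = (P / f (r t)) ^ 2 := by
      field_simp
    have e2 : h (r t) ^ 2 * (Q / h (r t) ^ 2) ^ 2 = (Q / h (r t)) ^ 2 := by
      field_simp
    rw [e1, e2]
    linarith
  · intro t
    show spt L (r (t + T)) (z (t + T)) = spt L (r t) (z t)
    have hz1 : E1 (t + T) = E1 t := by
      rw [hE1]
      simp only
      rw [hθ₁T]
      have : (((θ₁ t + 2 * π : ℝ) : ℂ)) * Complex.I = (θ₁ t : ℂ) * Complex.I + 2 * π * Complex.I := by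
        push_cast
        ring
      rw [this, Complex.exp_periodic]
    have hz2 : (s : ℂ) * E2 (t + T) = (s : ℂ) * E2 t := by
      rcases hθ₂T with h5 | h5
      · rw [hsQ h5]
        simp
      · rw [hE2]
        simp only
        rw [h5]
        have : (((θ₂ t - 2 * π : ℝ) : ℂ)) * Complex.I = (θ₂ t : ℂ) * Complex.I - 2 * π * Complex.I := by
          push_cast
          ring
        rw [this, Complex.exp_periodic.sub_eq]
    have : z (t + T) = z t := by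
      rw [hz]
      simp only
      rw [hz1, hz2]
    rw [hrT, this]

end H804US.GP
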