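import Pool.Graph.R_seed8.H738R3.CP.LI
import Pool.Graph.R_seed8.H738R3.CP.GR
import Pool.Agent.H804.US.Defs

/-!
# Geodesics of the totally geodesic 2-spheres
-/

open Real Set MeasureTheory Filter Topology
open scoped ContDiff
open H738CP H738CP.LI

namespace H804US.Lift

theorem lift_line {L : ℝ} {f h : ℝ → ℝ} (hf : IsProfileUS L f h) {n : ℕ} (hn : 2 ≤ n) {v : ℝ}
    {γ : ℝ → EuclideanSpace ℝ (Fin 2) × ℝ} (hγ : Pool.Agent.H206R2.Rot.IsGeodesic L f v γ) :
    ∃ γ' : ℝ → EuclideanSpace ℂ (Fin n) × ℝ, IsGeodesicUS L f h v γ' ∧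
      ∀ T, (∀ t, γ (t + T) = γ t) → ∀ t, γ' (t + T) = γ' t := by
  obtain ⟨r, u, hr, hu, hu1, hγ', hr2, hu2, hsp⟩ := hγ
  have hL := hf.pf.pos
  obtain ⟨e, he⟩ : ∃ e : EuclideanSpace ℂ (Fin n), ‖e‖ = 1 :=
    ⟨EuclideanSpace.single ⟨0, by omega⟩ 1, by simp⟩
  have hC2 : ContDiff ℝ (1 + 1) u := by
    have e2 : (1 + 1 : WithTop ℕ∞) = 2 := by norm_num
    rw [e2]
    exact hu
  have hdu : ∀ t, HasDerivAt u (deriv u t) t := fun t =>
    (hu.differentiable (by norm_num)).differentiableAt.hasDerivAt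
  have hCr : ContDiff ℝ 1 (deriv u) := (contDiff_succ_iff_deriv.1 hC2).2.2
  have hddu : ∀ t, HasDerivAt (deriv u) (deriv (deriv u) t) t := fun t =>
    (hCr.differentiable (by norm_num)).differentiableAt.hasDerivAt
  have hdr : ∀ t, HasDerivAt r (deriv r t) t := fun t =>
    (hr.differentiable (by norm_num)).differentiableAt.hasDerivAt
  -- components
  have hn1 : ∀ t, u t 0 ^ 2 + u t 1 ^ 2 = 1 := fun t => by
    rw [← norm2, hu1 t]; norm_num
  have horth : ∀ t, u t 0 * deriv u t 0 + u t 1 * deriv u t 1 = 0 := by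
    intro t
    have d0 := comp_deriv (hdu t) 0
    have d1 := comp_deriv (hdu t) 1
    have d2 : HasDerivAt (fun t => u t 0 ^ 2 + u t 1 ^ 2)
        (2 * u t 0 * deriv u t 0 + 2 * u t 1 * deriv u t 1) t := by
      have := (d0.pow 2).add (d1.pow 2)
      refine this.congr_deriv ?_
      simp
    have d3 : HasDerivAt (fun t => u t 0 ^ 2 + u t 1 ^ 2) 0 t := by
      have : (fun t => u t 0 ^ 2 + u t 1 ^ 2) = fun _ => (1 : ℝ) := funext hn1
      rw [this]
      exact hasDerivAt_const t 1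
    have := d2.unique d3
    linarith
  obtain ⟨a, ha⟩ : ∃ a : ℝ → ℝ, a = fun t => u t 0 * deriv u t 1 - u t 1 * deriv u t 0 := ⟨_, rfl⟩
  have hat : ∀ t, a t = u t 0 * deriv u t 1 - u t 1 * deriv u t 0 := fun t => by rw [ha]
  have hu'0 : ∀ t, deriv u t 0 = - a t * u t 1 := by
    intro t
    rw [hat]
    linear_combination (- deriv u t 0) * hn1 t + u t 0 * horth t
  have hu'1 : ∀ t, deriv u t 1 = a t * u t 0 := by
    intro t
    rw [hat]
    linear_combination (- deriv u t 1) * hn1 t + u t 1 * horth t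
  have hnu : ∀ t, ‖deriv u t‖ ^ 2 = a t ^ 2 := by
    intro t
    rw [norm2, hu'0, hu'1]
    linear_combination a t ^ 2 * hn1 t
  have had : ∀ t, HasDerivAt a (u t 0 * deriv (deriv u) t 1 - u t 1 * deriv (deriv u) t 0) t := by
    intro t
    have d0 := comp_deriv (hdu t) 0
    have d1 := comp_deriv (hdu t) 1
    have d2 := comp_deriv (hddu t) 0
    have d3 := comp_deriv (hddu t) 1
    rw [ha]
    refine ((d0.mul d3).sub (d1.mul d2)).congr_deriv ?_
    ring
  have hode : ∀ t, f (r t) * (u t 0 * deriv (deriv u) t 1 - u t 1 * deriv (deriv u) t 0) +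
      2 * deriv f (r t) * deriv r t * a t = 0 := by
    intro t
    have q0 := congrArg (fun x : EuclideanSpace ℝ (Fin 2) => x 0) (hu2 t)
    have q1 := congrArg (fun x : EuclideanSpace ℝ (Fin 2) => x 1) (hu2 t)
    simp only [PiLp.add_apply, PiLp.smul_apply, smul_eq_mul, PiLp.zero_apply] at q0 q1
    rw [hat]
    linear_combination u t 0 * q1 - u t 1 * q0
  have hdf : ∀ t, HasDerivAt (fun t => f (r t)) (deriv f (r t) * deriv r t) t := fun t =>
    ((hf.pf.smooth.differentiable (by simp)).differentiableAt.hasDerivAt).comp t (hdr t)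
  have hP : ∃ P : ℝ, ∀ t, f (r t) ^ 2 * a t = P := by
    refine ⟨f (r 0) ^ 2 * a 0, fun t => ?_⟩
    have hd : ∀ t, HasDerivAt (fun t => f (r t) ^ 2 * a t) 0 t := by
      intro t
      refine (((hdf t).pow 2).mul (had t)).congr_deriv ?_
      have := hode t
      simp only [Pi.pow_apply, Nat.cast_ofNat, Nat.add_one_sub_one, pow_one]
      linear_combination f (r t) * this
    exact is_const_of_deriv_eq_zero (fun t => (hd t).differentiableAt) (fun t => (hd t).deriv) t 0
  -- the curve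
  obtain ⟨z, hz⟩ : ∃ z : ℝ → EuclideanSpace ℂ (Fin n), z = fun t => zt (u t) • e := ⟨_, rfl⟩
  have hzt : ∀ t, z t = zt (u t) • e := fun t => by rw [hz]
  have hζ1 : ∀ t, ‖zt (u t)‖ = 1 := by
    intro t
    have h1 := zt_norm (u t)
    rw [hu1 t] at h1
    have h2 := norm_nonneg (zt (u t))
    nlinarith
  have hdz : ∀ t, HasDerivAt z (zt (deriv u t) • e) t := by
    intro t
    rw [hz]
    exact (zt_deriv (hdu t)).smul_const e
  have hzd : ∀ t, zt (deriv u t) = ((a t : ℂ) * Complex.I) * zt (u t) := by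
    intro t
    unfold zt
    rw [hu'0, hu'1]
    push_cast
    linear_combination (-(a t : ℂ) * (u t 1 : ℂ)) * Complex.I_sq
  have hzd' : ∀ t, deriv z t = ((a t : ℂ) * Complex.I) • z t := by
    intro t
    rw [(hdz t).deriv, hzd, hzt, smul_smul]
  have hz1 : ∀ t, ‖z t‖ = 1 := fun t => by rw [hzt, norm_smul, hζ1, he, one_mul]
  have hhopf : ∀ t, hopf z t = a t := by
    intro t
    unfold hopf
    rw [hzd', inner_smul_right, inner_self_eq_norm_sq_to_K, hz1]
    simp
  have hhor : ∀ t, hor z t = 0 := by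
    intro t
    unfold hor
    rw [hhopf, hzd', sub_self]
  have hhor' : hor z = fun _ => 0 := funext hhor
  refine ⟨fun t => spt L (r t) (z t), ⟨r, z, hr, ?_, hz1, fun t => rfl, ?_, ?_, ?_, ?_⟩, ?_⟩
  · rw [hz]
    exact (zt_smooth hu).smul contDiff_const
  · intro t
    rw [hr2 t, hhopf, hhor, hnu]
    simp
  · obtain ⟨P, hP⟩ := hP
    exact ⟨P, fun t => by rw [hhopf]; exact hP t⟩
  · intro t
    have e1 : deriv (hor z) t = 0 := by
      rw [hhor']
      simp
    rw [e1, hhor]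
    simp
  · intro t
    rw [hhopf, hhor, ← hsp t, hnu]
    simp
  · intro T hT t
    have h1 := hT t
    rw [hγ' (t + T), hγ' t] at h1
    unfold Pool.Agent.H206R2.Rot.polar at h1
    have h2 := congrArg Prod.fst h1
    have h3 := congrArg Prod.snd h1
    simp only at h2 h3
    have h4 := congrArg zt h2
    rw [zt_smul, zt_smul] at h4
    show spt L (r (t + T)) (z (t + T)) = spt L (r t) (z t)
    unfold spt
    rw [h3, hzt, hzt, smul_smul, smul_smul, h4]

theorem lift_real {L : ℝ} {f h : ℝ → ℝ} (hf : IsProfileUS L f h) {n : ℕ} (hn : 2 ≤ n) {v : ℝ}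
    {γ : ℝ → EuclideanSpace ℝ (Fin 2) × ℝ} (hγ : Pool.Agent.H206R2.Rot.IsGeodesic L h v γ) :
    ∃ γ' : ℝ → EuclideanSpace ℂ (Fin n) × ℝ, IsGeodesicUS L f h v γ' ∧
      ∀ T, (∀ t, γ (t + T) = γ t) → ∀ t, γ' (t + T) = γ' t := by
  have _ := hf
  obtain ⟨r, u, hr, hu, hu1, hγ', hr2, hu2, hsp⟩ := hγ
  obtain ⟨a, b, haa, hbb, hab, hba⟩ : ∃ a b : EuclideanSpace ℂ (Fin n), inner ℂ a a = 1 ∧
      inner ℂ b b = 1 ∧ inner ℂ a b = 0 ∧ inner ℂ b a = 0 := by
    refine ⟨EuclideanSpace.single ⟨0, by omega⟩ 1, EuclideanSpace.single ⟨1, by omega⟩ 1,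
      ?_, ?_, ?_, ?_⟩
    · rw [EuclideanSpace.inner_single_left]; simp
    · rw [EuclideanSpace.inner_single_left]; simp
    · rw [EuclideanSpace.inner_single_left]; simp
    · rw [EuclideanSpace.inner_single_left]; simp
  have hC2 : ContDiff ℝ (1 + 1) u := by
    have e2 : (1 + 1 : WithTop ℕ∞) = 2 := by norm_num
    rw [e2]
    exact hu
  have hdu : ∀ t, HasDerivAt u (deriv u t) t := fun t =>
    (hu.differentiable (by norm_num)).differentiableAt.hasDerivAt
  have hCr : ContDiff ℝ 1 (deriv u) := (contDiff_succ_iff_deriv.1 hC2).2.2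
  have hddu : ∀ t, HasDerivAt (deriv u) (deriv (deriv u) t) t := fun t =>
    (hCr.differentiable (by norm_num)).differentiableAt.hasDerivAt
  set K : EuclideanSpace ℝ (Fin 2) → EuclideanSpace ℂ (Fin n) := fun x =>
    ((x 0 : ℝ) : ℂ) • a + ((x 1 : ℝ) : ℂ) • b with hK
  have hKd : ∀ {w : ℝ → EuclideanSpace ℝ (Fin 2)} {w' : EuclideanSpace ℝ (Fin 2)} {t : ℝ},
      HasDerivAt w w' t → HasDerivAt (fun t => K (w t)) (K w') t := by
    intro w w' t hw
    exact ((comp_deriv hw 0).ofReal_comp.smul_const a).add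
      ((comp_deriv hw 1).ofReal_comp.smul_const b)
  have hKs : ∀ (c : ℝ) (x : EuclideanSpace ℝ (Fin 2)), K (c • x) = (c : ℂ) • K x := by
    intro c x
    simp only [hK, PiLp.smul_apply, smul_eq_mul]
    push_cast
    module
  have hKa : ∀ x y : EuclideanSpace ℝ (Fin 2), K (x + y) = K x + K y := by
    intro x y
    simp only [hK, PiLp.add_apply]
    push_cast
    module
  have hK0 : K 0 = 0 := by
    simp [hK]
  have hKn : ∀ x, ‖K x‖ ^ 2 = ‖x‖ ^ 2 := by
    intro x
    rw [hK]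
    simp only
    rw [H738CP.GR.norm_lin haa hbb hab hba, norm2]
  have hKi : ∀ x y, (inner ℂ (K x) (K y)).im = 0 := by
    intro x y
    rw [hK]
    simp only
    rw [H738CP.GR.inner_lin haa hbb hab hba, Complex.ofReal_im]
  obtain ⟨z, hz⟩ : ∃ z : ℝ → EuclideanSpace ℂ (Fin n), z = fun t => K (u t) := ⟨_, rfl⟩
  have hdz : ∀ t, HasDerivAt z (K (deriv u t)) t := by
    intro t
    rw [hz]
    exact hKd (hdu t)
  have hzd : deriv z = fun t => K (deriv u t) := funext fun t => (hdz t).deriv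
  have hhopf : ∀ t, hopf z t = 0 := by
    intro t
    unfold hopf
    rw [hzd, hz]
    exact hKi _ _
  have hhor : hor z = deriv z := by
    funext t
    unfold hor
    rw [hhopf t]
    simp
  have hzdd : ∀ t, deriv (hor z) t = K (deriv (deriv u) t) := by
    intro t
    rw [hhor, hzd]
    exact (hKd (hddu t)).deriv
  have hnor : ∀ t, ‖hor z t‖ ^ 2 = ‖deriv u t‖ ^ 2 := by
    intro t
    rw [hhor, hzd]
    exact hKn _
  refine ⟨fun t => spt L (r t) (z t), ⟨r, z, hr, ?_, ?_, fun t => rfl, ?_, ⟨0, ?_⟩, ?_, ?_⟩, ?_⟩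
  · rw [hz]
    have h0 : ContDiff ℝ 2 (fun t => u t 0) :=
      (EuclideanSpace.proj (𝕜 := ℝ) (0 : Fin 2)).contDiff.comp hu
    have h1 : ContDiff ℝ 2 (fun t => u t 1) :=
      (EuclideanSpace.proj (𝕜 := ℝ) (1 : Fin 2)).contDiff.comp hu
    exact ((Complex.ofRealCLM.contDiff.comp h0).smul contDiff_const).add
      ((Complex.ofRealCLM.contDiff.comp h1).smul contDiff_const)
  · intro t
    have e1 := hKn (u t)
    rw [hu1 t, one_pow] at e1
    rw [hz]
    exact (pow_eq_one_iff_of_nonneg (norm_nonneg _) two_ne_zero).1 e1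
  · intro t
    rw [hhopf, hnor, hr2]
    ring
  · intro t
    rw [hhopf, mul_zero]
  · intro t
    rw [hhopf, hnor, hzdd, hhor, hzd, hz]
    simp only
    have e := congrArg (fun x => K (h (r t) • x)) (hu2 t)
    simp only [smul_zero, hK0, hKs, hKa] at e
    rw [mul_zero, Complex.ofReal_zero, zero_mul, zero_smul, add_zero, ← e]
    push_cast
    module
  · intro t
    rw [hhopf, hnor]
    have := hsp t
    linear_combination this
  · intro T hT t
    have h1 := hT t
    rw [hγ' (t + T), hγ' t] at h1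
    unfold Pool.Agent.H206R2.Rot.polar at h1
    have h2 := congrArg Prod.fst h1
    have h3 := congrArg Prod.snd h1
    simp only at h2 h3
    have h4 := congrArg K h2
    rw [hKs, hKs] at h4
    show spt L (r (t + T)) (z (t + T)) = spt L (r t) (z t)
    unfold spt
    rw [h3, hz]
    simp only
    rw [h4]

end H804US.Lift
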