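import Pool.Agent.H804.US.Act
import Pool.Agent.H804.US.Vol
import Pool.Agent.H804.US.SDefs
import Pool.Agent.H804.OP.Em
import Pool.Graph.R_seed8.H738R3.CP.HE

/-!
# Short periodic geodesics
-/

open Real Set MeasureTheory Filter Topology Quaternion
open scoped ContDiff RealInnerProductSpace
open Pool.Agent.H206R2.Rot2 (Veff well actW)
open H738CP H804OP
open H804OP.Cl H804OP.Sl

namespace H804US.Main

theorem key {L : ℝ} {f h : ℝ → ℝ} (hf : IsProfileUS L f h) {n : ℕ} (hn : 2 ≤ n) (a b : ℕ) :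
    ∃ (γ : ℝ → EuclideanSpace ℂ (Fin n) × ℝ) (T : ℝ), 0 < T ∧
      IsGeodesicUS L f h 1 γ ∧ (∀ t, γ (t + T) = γ t) ∧
      T ^ (a + b + 3) * (∫ t in (0 : ℝ)..π, Real.sin t ^ (a + b + 2)) ≤
        (2 * π) ^ (a + b + 3) * ∫ r in (0 : ℝ)..L, f r ^ (a + 1) * h r ^ (b + 1) := by
  have hfc : Continuous f := hf.pf.smooth.continuous
  have hhc : Continuous h := hf.ph.smooth.continuous
  have hLpos := hf.pf.pos
  have hpi := Real.pi_pos
  set V : ℝ := ∫ r in (0 : ℝ)..L, f r ^ (a + 1) * h r ^ (b + 1) with hVdef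
  set W : ℝ := ∫ t in (0 : ℝ)..π, Real.sin t ^ (a + b + 2) with hWdef
  have hW : 0 < W := integral_sin_pow_pos _
  have hV : 0 < V := by
    refine intervalIntegral.intervalIntegral_pos_of_pos_on
      (((hfc.pow _).mul (hhc.pow _)).intervalIntegrable _ _) (fun x hx => ?_) hLpos
    exact mul_pos (pow_pos (hf.pf.fpos x hx.1 hx.2) _) (pow_pos (hf.ph.fpos x hx.1 hx.2) _)
  obtain ⟨R, hR, hRn⟩ : ∃ R : ℝ, 0 < R ∧ R ^ (a + b + 3) = V / W := by
    refine ⟨(V / W) ^ (((a + b + 3 : ℕ) : ℝ)⁻¹), Real.rpow_pos_of_pos (by positivity) _, ?_⟩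
    rw [Real.rpow_inv_natCast_pow (by positivity) (by omega)]
  suffices hmain : ∃ (γ : ℝ → EuclideanSpace ℂ (Fin n) × ℝ) (T : ℝ),
      0 < T ∧ IsGeodesicUS L f h 1 γ ∧ (∀ t, γ (t + T) = γ t) ∧ T ≤ 2 * π * R by
    obtain ⟨γ, T, hT, hγ, hper, hle⟩ := hmain
    refine ⟨γ, T, hT, hγ, hper, ?_⟩
    have h1 : T ^ (a + b + 3) ≤ (2 * π * R) ^ (a + b + 3) := pow_le_pow_left₀ hT.le hle _
    calc T ^ (a + b + 3) * W ≤ (2 * π * R) ^ (a + b + 3) * W :=
          mul_le_mul_of_nonneg_right h1 hW.le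
      _ = (2 * π) ^ (a + b + 3) * (R ^ (a + b + 3) * W) := by rw [mul_pow (2 * π) R]; ring
      _ = (2 * π) ^ (a + b + 3) * V := by rw [hRn, div_mul_cancel₀ _ hW.ne']
  by_contra hcon
  have hno : ∀ (γ : ℝ → EuclideanSpace ℂ (Fin n) × ℝ) (T : ℝ), 0 < T →
      IsGeodesicUS L f h 1 γ → (∀ t, γ (t + T) = γ t) → 2 * π * R < T := by
    intro γ T hT hγ hper
    by_contra hle
    exact hcon ⟨γ, T, hT, hγ, hper, not_lt.1 hle⟩
  obtain ⟨hA, r₀, h1, h2, h3, _⟩ := Act.action_bound hf hn hR hno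
  have h4 := Vol.volume_bound hfc hhc hLpos hf.pf.fpos hf.ph.fpos a b hR hA ⟨r₀, h1, h2, h3⟩
  rw [← hWdef, ← hVdef, hRn, div_mul_cancel₀ _ hW.ne'] at h4
  exact lt_irrefl _ h4

/-- `U(n)`-invariant metrics on `S^{2n}`. -/
theorem short_US {L : ℝ} {f h : ℝ → ℝ} (hf : IsProfileUS L f h) {n : ℕ} (hn : 2 ≤ n) :
    ∃ (γ : ℝ → EuclideanSpace ℂ (Fin n) × ℝ) (T : ℝ), 0 < T ∧
      IsGeodesicUS L f h 1 γ ∧ (∀ t, γ (t + T) = γ t) ∧
      T ^ (2 * n) * (∫ t in (0 : ℝ)..π, Real.sin t ^ (2 * n - 1)) ≤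
        (2 * π) ^ (2 * n) * ∫ r in (0 : ℝ)..L, f r * h r ^ (2 * n - 2) := by
  have h1 := key hf hn 0 (2 * n - 3)
  have e1 : 0 + (2 * n - 3) + 3 = 2 * n := by omega
  have e2 : 0 + (2 * n - 3) + 2 = 2 * n - 1 := by omega
  have e3 : 2 * n - 3 + 1 = 2 * n - 2 := by omega
  rw [e1, e2, e3] at h1
  simpa using h1

/-- The totally geodesic `S⁴` in `S^{4n}`. -/
theorem embedHS {L : ℝ} {f h : ℝ → ℝ} {n : ℕ} (hn : 2 ≤ n) {v : ℝ}
    {γ : ℝ → EuclideanSpace ℂ (Fin 2) × ℝ} (hγ : IsGeodesicUS L f h v γ) :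
    ∃ γ' : ℝ → (Fin n → ℍ[ℝ]) × ℝ, IsGeodesicHS L f h v γ' ∧
      ∀ T, (∀ t, γ (t + T) = γ t) → ∀ t, γ' (t + T) = γ' t := by
  obtain ⟨m, rfl⟩ : ∃ m, n = m + 2 := ⟨n - 2, by omega⟩
  obtain ⟨r, z, hr, hz, hz1, hpt', e1, ⟨P, e2⟩, e3, e4⟩ := hγ
  have hzd : ∀ t, DifferentiableAt ℝ z t := fun t => (hz.differentiable (by norm_num)) t
  have hqv : ∀ t, qvert (fun s => HE.E m (z s)) t = HE.K ((hopf z t : ℂ) * Complex.I) :=
    fun t => HE.qvert_E m (hzd t)
  have hqh : ∀ t, qhor (fun s => HE.E m (z s)) t = HE.E m (hor z t) := fun t => HE.qhor_E m (hzd t)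
  have hqh' : qhor (fun s => HE.E m (z s)) = fun t => HE.E m (hor z t) := funext hqh
  have hn1 : ∀ t, ‖qvert (fun s => HE.E m (z s)) t‖ ^ 2 = hopf z t ^ 2 := by
    intro t; rw [hqv, HE.K_hopf_norm]
  have hn2 : ∀ t, nsq (qhor (fun s => HE.E m (z s)) t) = ‖hor z t‖ ^ 2 := by
    intro t; rw [hqh, HE.nsq_E]
  have hdz : ContDiff ℝ 1 (deriv z) := by
    have : ContDiff ℝ (1 + 1) z := by norm_num; exact hz
    exact (contDiff_succ_iff_deriv.1 this).2.2
  have hhor : ∀ t, DifferentiableAt ℝ (hor z) t := by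
    intro t
    have hd : DifferentiableAt ℝ (deriv z) t := (hdz.differentiable one_ne_zero) t
    have hi : DifferentiableAt ℝ (fun s => (inner ℂ (z s) (deriv z s) : ℂ)) t :=
      (hzd t).inner ℂ hd
    have hh : DifferentiableAt ℝ (fun s => hopf z s) t := by
      unfold hopf
      exact (Complex.imCLM.differentiableAt).comp t hi
    have hc : DifferentiableAt ℝ (fun s => ((hopf z s : ℂ) * Complex.I)) t := by
      have : DifferentiableAt ℝ (fun s => ((hopf z s : ℝ) : ℂ)) t :=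
        (Complex.ofRealCLM.differentiableAt).comp t hh
      exact this.mul_const _
    show DifferentiableAt ℝ (fun s => deriv z s - ((hopf z s : ℂ) * Complex.I) • z s) t
    exact hd.sub (hc.smul (hzd t))
  refine ⟨fun t => sptH L (r t) (HE.E m (z t)), ⟨r, fun t => HE.E m (z t), hr,
    (HE.E m).contDiff.comp hz, ?_, fun t => rfl, ?_, ⟨HE.K ((P : ℂ) * Complex.I), ?_⟩, ?_, ?_⟩, ?_⟩
  · intro t; rw [HE.nsq_E, hz1]; norm_num
  · intro t; rw [hn1, hn2]; exact e1 t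
  · intro t
    rw [hqv, ← HE.K_real, ← e2 t]
    congr 1
    push_cast
    ring
  · intro t i
    have h3 := congrArg (fun w => HE.E m w i) (e3 t)
    simp only [map_add, Pi.add_apply, map_zero, Pi.zero_apply] at h3
    rw [HE.E_rsmul, map_add, Pi.add_apply, HE.E_rsmul, HE.E_rsmul, HE.E_smul] at h3
    rw [hn2, hqv, hqh']
    rw [HE.deriv_E m (hhor t)]
    simp only
    rw [← h3]
    congr 1
    rw [← mul_smul_comm, ← HE.K_real]
    congr 2
    push_cast
    ring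
  · intro t; rw [hn1, hn2]; exact e4 t
  · intro T hT t
    have h1 := hT t
    rw [hpt', hpt'] at h1
    unfold spt at h1
    have h2 := congrArg Prod.fst h1
    have h3 := congrArg Prod.snd h1
    simp only at h2 h3
    show sptH L (r (t + T)) (HE.E m (z (t + T))) = sptH L (r t) (HE.E m (z t))
    unfold sptH
    rw [h3]
    congr 1
    have h4 := congrArg (HE.E m) h2
    funext i
    have h5 := congrFun h4 i
    rw [HE.E_rsmul, HE.E_rsmul] at h5
    exact h5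

/-- The totally geodesic `S⁴` in `S^16`. -/
theorem embedOS {A : Fin 9 → E16 →L[ℝ] E16} (hA : IsClifford A) {e : E16} (he : A 0 e = e)
    (he1 : ‖e‖ = 1) {L : ℝ} {f h : ℝ → ℝ} (hf : IsProfileUS L f h) {v : ℝ}
    {γ : ℝ → EuclideanSpace ℂ (Fin 2) × ℝ} (hγ : IsGeodesicUS L f h v γ) :
    ∃ γ' : ℝ → E16 × ℝ, IsGeodesicOS A L f h v γ' ∧
      ∀ T, (∀ t, γ (t + T) = γ t) → ∀ t, γ' (t + T) = γ' t := by
  obtain ⟨r, z, hr, hz, hz1, hpt', e1, ⟨P, e2⟩, e3, e4⟩ := hγ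
  have hzd : ∀ t, HasDerivAt z (deriv z t) t := fun t => (hz.differentiable (by norm_num) t).hasDerivAt
  have hrd : ∀ t, HasDerivAt r (deriv r t) t := fun t => (hr.differentiable (by norm_num) t).hasDerivAt
  have hhd : ∀ x, HasDerivAt h (deriv h x) x := fun x =>
    (hf.ph.smooth.differentiable (by norm_num) x).hasDerivAt
  have hdz : ContDiff ℝ 1 (deriv z) := by
    have : ContDiff ℝ (1 + 1) z := by norm_num; exact hz
    exact (contDiff_succ_iff_deriv.1 this).2.2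
  have hhor : ∀ t, DifferentiableAt ℝ (hor z) t := by
    intro t
    have hd : DifferentiableAt ℝ (deriv z) t := (hdz.differentiable one_ne_zero) t
    have hi : DifferentiableAt ℝ (fun s => (inner ℂ (z s) (deriv z s) : ℂ)) t :=
      (hzd t).differentiableAt.inner ℂ hd
    have hh : DifferentiableAt ℝ (fun s => hopf z s) t := by
      unfold hopf
      exact (Complex.imCLM.differentiableAt).comp t hi
    have hc : DifferentiableAt ℝ (fun s => ((hopf z s : ℂ) * Complex.I)) t := by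
      have : DifferentiableAt ℝ (fun s => ((hopf z s : ℝ) : ℂ)) t :=
        (Complex.ofRealCLM.differentiableAt).comp t hh
      exact this.mul_const _
    show DifferentiableAt ℝ (fun s => deriv z s - ((hopf z s : ℂ) * Complex.I) • z s) t
    exact hd.sub (hc.smul (hzd t).differentiableAt)
  have hΦd : ∀ t, deriv (fun s => Ph A e (z s)) t = Ph A e (deriv z t) := fun t =>
    ((Ph A e).hasFDerivAt.comp_hasDerivAt t (hzd t)).deriv
  have hsplit : ∀ t, deriv z t = hor z t + ((hopf z t : ℂ) * Complex.I) • z t := by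
    intro t
    unfold hor
    rw [sub_add_cancel]
  have hnh : ∀ t, ‖hor z t‖ ^ 2 = ‖deriv z t‖ ^ 2 - hopf z t ^ 2 := by
    intro t
    have h1 : (z t 0).re ^ 2 + (z t 0).im ^ 2 + (z t 1).re ^ 2 + (z t 1).im ^ 2 = 1 := by
      rw [← nsq2, hz1]; norm_num
    have h2 : ∀ j, ((hor z t) j).re = (deriv z t j).re + hopf z t * (z t j).im := by
      intro j
      unfold hor
      simp
    have h3 : ∀ j, ((hor z t) j).im = (deriv z t j).im - hopf z t * (z t j).re := by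
      intro j
      unfold hor
      simp
    have h4 : hopf z t = (z t 0).re * (deriv z t 0).im - (z t 0).im * (deriv z t 0).re +
        ((z t 1).re * (deriv z t 1).im - (z t 1).im * (deriv z t 1).re) := innim _ _
    rw [nsq2, nsq2, h2, h2, h3, h3]
    linear_combination (hopf z t) ^ 2 * h1 + 2 * hopf z t * h4
  have hhs : ∀ t, hsq A (Ph A e (z t)) (Ph A e (deriv z t)) = ‖hor z t‖ ^ 2 := by
    intro t
    rw [hsq_Ph hA he he1, hz1, hnh]
    unfold hopf
    ring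
  have hvs : ∀ t, vsq A (Ph A e (z t)) (Ph A e (deriv z t)) = hopf z t ^ 2 := by
    intro t
    unfold vsq
    rw [hhs, nsq_Ph hA he he1, hnh]
    ring
  refine ⟨fun t => sptO L (r t) (Ph A e (z t)), ⟨r, fun t => Ph A e (z t), hr,
    (Ph A e).contDiff.comp hz, ?_, fun t => rfl, ?_, ?_, ?_⟩, ?_⟩
  · intro t
    have h1 := nsq_Ph hA he he1 (z t)
    rw [hz1] at h1
    exact (pow_left_inj₀ (norm_nonneg _) zero_le_one two_ne_zero).1 h1
  · intro t
    rw [hΦd, hvs, hhs]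
    exact e1 t
  · intro t
    refine ⟨-((2 * h (r t) ^ 2 - f (r t) ^ 2) * ‖hor z t‖ ^ 2 + f (r t) ^ 2 * hopf z t ^ 2), ?_⟩
    have hmom : mom A f h r (fun t => Ph A e (z t)) = fun s =>
        Ph A e ((h (r s) ^ 2) • hor z s + ((P : ℂ) * Complex.I) • z s) := by
      funext s
      unfold mom
      rw [hΦd]
      simp only
      rw [horp_Ph hA he he1 _ _ (hz1 s), ← map_smul, ← map_smul, ← map_add]
      congr 1
      have h5 : deriv z s - (((inner ℂ (z s) (deriv z s)).im : ℂ) * Complex.I) • z s = hor z s := rfl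
      rw [h5, hsplit s]
      ext j
      have h6 : ((P : ℝ) : ℂ) = (f (r s) : ℂ) ^ 2 * (hopf z s : ℂ) := by
        rw [← e2 s]
        push_cast
        ring
      simp only [PiLp.add_apply, PiLp.smul_apply, smul_eq_mul, Complex.real_smul]
      rw [h6]
      push_cast
      ring
    have hmd : HasDerivAt (fun s => Ph A e ((h (r s) ^ 2) • hor z s + ((P : ℂ) * Complex.I) • z s))
        (Ph A e (((h (r t) ^ 2) • deriv (hor z) t + (2 * h (r t) * (deriv h (r t) * deriv r t)) • hor z t)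
          + ((P : ℂ) * Complex.I) • deriv z t)) t := by
      apply (Ph A e).hasFDerivAt.comp_hasDerivAt t
      have g1 : HasDerivAt (fun s => h (r s) ^ 2) (2 * h (r t) * (deriv h (r t) * deriv r t)) t := by
        have := ((hhd (r t)).comp t (hrd t)).pow 2
        refine this.congr_deriv ?_
        simp
      have g2 : HasDerivAt (fun s => ((P : ℂ) * Complex.I) • z s)
          (((P : ℂ) * Complex.I) • deriv z t) t := (hzd t).const_smul ((P : ℂ) * Complex.I)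
      exact (g1.smul (hhor t).hasDerivAt).add g2
    have hforce : force A f h r (fun t => Ph A e (z t)) t =
        Ph A e ((h (r t) ^ 2 - f (r t) ^ 2) • (((hopf z t : ℂ) * Complex.I) • deriv z t +
          (‖deriv z t‖ ^ 2) • z t)) := by
      unfold force
      rw [hΦd]
      simp only
      rw [force_Ph hA he he1, map_smul]
      rfl
    rw [hmom, hmd.deriv, hforce, ← map_sub, ← map_smul]
    congr 1
    ext j
    have hj := congrArg (fun w : EuclideanSpace ℂ (Fin 2) => w j) (e3 t)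
    have hs := congrArg (fun w : EuclideanSpace ℂ (Fin 2) => w j) (hsplit t)
    have hN : ((‖deriv z t‖ ^ 2 : ℝ) : ℂ) = ((‖hor z t‖ ^ 2 : ℝ) : ℂ) + (hopf z t : ℂ) ^ 2 := by
      rw [hnh]
      push_cast
      ring
    have h6 : ((P : ℝ) : ℂ) = (f (r t) : ℂ) ^ 2 * (hopf z t : ℂ) := by
      rw [← e2 t]
      push_cast
      ring
    simp only [PiLp.add_apply, PiLp.sub_apply, PiLp.smul_apply, smul_eq_mul, Complex.real_smul,
      PiLp.zero_apply] at hj hs ⊢
    rw [hN, h6, hs]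
    push_cast at hj ⊢
    linear_combination hj + (2 * (f (r t) : ℂ) ^ 2 - (h (r t) : ℂ) ^ 2) * (hopf z t : ℂ) ^ 2 * z t j *
      Complex.I_sq
  · intro t
    rw [hΦd, hvs, hhs]
    exact e4 t
  · intro T hT t
    have h1 := hT t
    rw [hpt', hpt'] at h1
    unfold spt at h1
    have h2 := congrArg Prod.fst h1
    have h3 := congrArg Prod.snd h1
    simp only at h2 h3
    have hs : ∀ (c : ℝ) (w : EuclideanSpace ℂ (Fin 2)), Ph A e ((c : ℂ) • w) = c • Ph A e w := by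
      intro c w
      rw [← map_smul]
      congr 1
    show sptO L (r (t + T)) (Ph A e (z (t + T))) = sptO L (r t) (Ph A e (z t))
    unfold sptO
    rw [h3]
    congr 1
    have h4 := congrArg (Ph A e) h2
    rw [hs, hs] at h4
    exact h4

/-- `Sp(n)Sp(1)`-invariant metrics on `S^{4n}`. -/
theorem short_HS {L : ℝ} {f h : ℝ → ℝ} (hf : IsProfileUS L f h) {n : ℕ} (hn : 2 ≤ n) :
    ∃ (γ : ℝ → (Fin n → ℍ[ℝ]) × ℝ) (T : ℝ), 0 < T ∧
      IsGeodesicHS L f h 1 γ ∧ (∀ t, γ (t + T) = γ t) ∧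
      T ^ (4 * n) * (∫ t in (0 : ℝ)..π, Real.sin t ^ (4 * n - 1)) ≤
        (2 * π) ^ (4 * n) * ∫ r in (0 : ℝ)..L, f r ^ 3 * h r ^ (4 * n - 4) := by
  obtain ⟨γ, T, hT, hγ, hper, h1⟩ := key hf (n := 2) le_rfl 2 (4 * n - 5)
  obtain ⟨γ', hγ', hper'⟩ := embedHS hn hγ
  have e1 : 2 + (4 * n - 5) + 3 = 4 * n := by omega
  have e2 : 2 + (4 * n - 5) + 2 = 4 * n - 1 := by omega
  have e3 : 4 * n - 5 + 1 = 4 * n - 4 := by omega
  rw [e1, e2, e3] at h1
  exact ⟨γ', T, hT, hγ', hper' T hper, h1⟩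

/-- `Spin(9)`-invariant metrics on `S^16`. -/
theorem short_OS {A : Fin 9 → E16 →L[ℝ] E16} (hA : IsClifford A) {L : ℝ} {f h : ℝ → ℝ}
    (hf : IsProfileUS L f h) :
    ∃ (γ : ℝ → E16 × ℝ) (T : ℝ), 0 < T ∧
      IsGeodesicOS A L f h 1 γ ∧ (∀ t, γ (t + T) = γ t) ∧
      T ^ 16 * (∫ t in (0 : ℝ)..π, Real.sin t ^ 15) ≤
        (2 * π) ^ 16 * ∫ r in (0 : ℝ)..L, f r ^ 7 * h r ^ 8 := by
  obtain ⟨e, he, he1⟩ := Sl.exists_e hA
  obtain ⟨γ, T, hT, hγ, hper, h1⟩ := key hf (n := 2) le_rfl 6 7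
  obtain ⟨γ', hγ', hper'⟩ := embedOS hA he he1 hf hγ
  exact ⟨γ', T, hT, hγ', hper' T hper, h1⟩

end H804US.Main
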