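import Pool.Agent.H804.US.St
import Pool.Graph.R_seed8.H738R3.CP.LS
import Pool.Graph.R_seed8.H738R3.CP.WS

/-!
# Existence of the minimum of the action defect on the quarter disc
-/

open Real Set MeasureTheory Filter Topology
open scoped ContDiff
open Pool.Agent.H206R2.Rot2 (Veff well actW)
open Pool.Agent.H206R2
open H738CP

namespace H804US.Mn

/-- The open quarter disc. -/
def RegD (R : ℝ) : Set (ℝ × ℝ) := {c | 0 < c.1 ∧ 0 < c.2 ∧ √(c.1 ^ 2 + c.2 ^ 2) < R}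

theorem isOpen_RegD (R : ℝ) : IsOpen (RegD R) := by
  have h1 : IsOpen {c : ℝ × ℝ | 0 < c.1} := isOpen_lt continuous_const continuous_fst
  have h2 : IsOpen {c : ℝ × ℝ | 0 < c.2} := isOpen_lt continuous_const continuous_snd
  have h3 : IsOpen {c : ℝ × ℝ | √(c.1 ^ 2 + c.2 ^ 2) < R} :=
    isOpen_lt (((continuous_fst.pow 2).add (continuous_snd.pow 2)).sqrt) continuous_const
  exact h1.inter (h2.inter h3)

/-- The action defect. -/
noncomputable def Dd (L R : ℝ) (f h : ℝ → ℝ) (s₀ : ℝ) (c : ℝ × ℝ) : ℝ :=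
  actW L (Veff f h c.1 c.2) s₀ - 2 * π * (R - √(c.1 ^ 2 + c.2 ^ 2))

theorem actW_nonneg (L : ℝ) (V : ℝ → ℝ) (s : ℝ) : 0 ≤ actW L V s := by
  unfold actW
  have : 0 ≤ ∫ r in well L V s, √(1 - V r) := integral_nonneg fun r => Real.sqrt_nonneg _
  linarith

theorem edge_int {L : ℝ} {g : ℝ → ℝ} (hg : Rot.IsProfile L g) {S a b R s₀ t : ℝ}
    (hw : Rot.Wall L g S a b) (hRS : R < S) (hs0 : 0 < s₀) (hsL : s₀ < L) (hgs : R < g s₀)
    (ht0 : 0 < t) (htR : t < R) (hEd : 2 * π * (R - t) ≤ Rot.actA L g t) :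
    ∃ p q, 0 < p ∧ p < s₀ ∧ s₀ < q ∧ q < L ∧ (∀ r ∈ Ioo p q, (t / g r) ^ 2 < 1) ∧
      2 * π * (R - t) ≤ 2 * ∫ r in Ioo p q, √(1 - (t / g r) ^ 2) := by
  obtain ⟨p, q, hp, hpq, hq, h1, h2⟩ := St.wall_int hg hw ht0 (htR.trans hRS)
  have hs : s₀ ∈ Ioo p q := by
    by_contra hcon
    have := h2 s₀ ⟨hs0, hsL⟩ hcon
    linarith
  refine ⟨p, q, hp, hs.1, hs.2, hq, fun r hr => ?_, ?_⟩
  · have h3 := h1 r hr
    have h4 : t / g r < 1 := by rw [div_lt_one (by linarith)]; exact h3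
    have h5 : 0 < t / g r := div_pos ht0 (by linarith)
    nlinarith
  · refine hEd.trans (le_of_eq ?_)
    rw [Rot.actA]
    congr 1
    refine (setIntegral_eq_of_subset_of_forall_sdiff_eq_zero measurableSet_Ioo
      (Ioo_subset_Ioo hp.le hq.le) ?_)
    intro r hr
    have hr2 := h2 r hr.1 hr.2
    have hr3 : 0 < g r := hg.fpos r hr.1.1 hr.1.2
    have hr4 : 1 ≤ t / g r := by rw [le_div_iff₀ hr3]; linarith
    refine Real.sqrt_eq_zero_of_nonpos ?_
    nlinarith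

theorem veff_lt {f h : ℝ → ℝ} {R s₀ : ℝ} (hR : 0 < R) (hf : R < f s₀) (hh : R < h s₀) {c : ℝ × ℝ}
    (hc : √(c.1 ^ 2 + c.2 ^ 2) < R) : Veff f h c.1 c.2 s₀ < 1 := by
  have h1 : c.1 ^ 2 + c.2 ^ 2 < R ^ 2 := by
    have := Real.sq_sqrt (by positivity : (0 : ℝ) ≤ c.1 ^ 2 + c.2 ^ 2)
    have h0 := Real.sqrt_nonneg (c.1 ^ 2 + c.2 ^ 2)
    nlinarith
  unfold Veff
  rw [div_pow, div_pow]
  have h2 : c.1 ^ 2 / f s₀ ^ 2 ≤ c.1 ^ 2 / R ^ 2 :=
    div_le_div_of_nonneg_left (sq_nonneg _) (by positivity) (by nlinarith)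
  have h3 : c.2 ^ 2 / h s₀ ^ 2 ≤ c.2 ^ 2 / R ^ 2 :=
    div_le_div_of_nonneg_left (sq_nonneg _) (by positivity) (by nlinarith)
  have h4 : c.1 ^ 2 / R ^ 2 + c.2 ^ 2 / R ^ 2 < 1 := by
    rw [← add_div, div_lt_one (by positivity)]
    exact h1
  linarith

/-- The minimum of the action defect is attained when it is negative somewhere. -/
theorem exists_min {L : ℝ} {f h : ℝ → ℝ} (hf : IsProfileUS L f h) {R S₁ a₁ b₁ S₂ a₂ b₂ s₀ : ℝ}
    (hR : 0 < R) (hS₁ : R < S₁) (hS₂ : R < S₂) (w₁ : Rot.Wall L f S₁ a₁ b₁)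
    (w₂ : Rot.Wall L h S₂ a₂ b₂) (hs0 : 0 < s₀) (hsL : s₀ < L) (hfs : R < f s₀) (hhs : R < h s₀)
    (hEf : ∀ c, 0 ≤ c → c ≤ R → 2 * π * (R - c) ≤ Rot.actA L f c)
    (hEh : ∀ c, 0 ≤ c → c ≤ R → 2 * π * (R - c) ≤ Rot.actA L h c)
    (hneg : ∃ c ∈ RegD R, Dd L R f h s₀ c < 0) :
    ∃ c ∈ RegD R, Dd L R f h s₀ c < 0 ∧ ∀ c' ∈ RegD R, Dd L R f h s₀ c ≤ Dd L R f h s₀ c' := by
  have hP := pair_of_profile hf
  have hpi := Real.pi_pos
  -- the infimum
  set E : Set ℝ := Dd L R f h s₀ '' RegD R with hE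
  have hbdd : BddBelow E := by
    refine ⟨-(2 * π * R), ?_⟩
    rintro _ ⟨c, hc, rfl⟩
    have h0 := actW_nonneg L (Veff f h c.1 c.2) s₀
    have h4 := Real.sqrt_nonneg (c.1 ^ 2 + c.2 ^ 2)
    unfold Dd
    nlinarith
  obtain ⟨c₁, hc₁, hc₁'⟩ := hneg
  have hne : E.Nonempty := ⟨_, c₁, hc₁, rfl⟩
  set m := sInf E with hm
  have hmneg : m < 0 := by
    have : m ≤ Dd L R f h s₀ c₁ := csInf_le hbdd ⟨c₁, hc₁, rfl⟩
    linarith
  obtain ⟨u, -, hu, huE⟩ := exists_seq_tendsto_sInf hne hbdd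
  choose d hdT hdu using huE
  -- subsequence
  have hle1 : ∀ c : ℝ × ℝ, |c.1| ≤ √(c.1 ^ 2 + c.2 ^ 2) := fun c =>
    Real.abs_le_sqrt (by nlinarith [sq_nonneg c.2])
  have hle2 : ∀ c : ℝ × ℝ, |c.2| ≤ √(c.1 ^ 2 + c.2 ^ 2) := fun c =>
    Real.abs_le_sqrt (by nlinarith [sq_nonneg c.1])
  have hdK : ∀ n, d n ∈ Icc ((0 : ℝ), (0 : ℝ)) (R, R) := by
    intro n
    obtain ⟨h1, h2, h3⟩ := hdT n
    have h4 := (abs_le.mp (hle1 (d n))).2
    have h5 := (abs_le.mp (hle2 (d n))).2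
    exact ⟨⟨h1.le, h2.le⟩, ⟨by simp only; linarith, by simp only; linarith⟩⟩
  obtain ⟨c₀, hc₀, φ, hφ, hlim⟩ := isCompact_Icc.tendsto_subseq hdK
  set c : ℕ → ℝ × ℝ := d ∘ φ with hcdef
  have hcT : ∀ n, c n ∈ RegD R := fun n => hdT (φ n)
  have hD : Tendsto (fun n => Dd L R f h s₀ (c n)) atTop (𝓝 m) := by
    have : (fun n => Dd L R f h s₀ (c n)) = u ∘ φ := by
      funext n; exact hdu (φ n)
    rw [this]
    exact hu.comp hφ.tendsto_atTop
  have e1 : Tendsto (fun n => (c n).1) atTop (𝓝 c₀.1) := (continuous_fst.tendsto c₀).comp hlim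
  have e2 : Tendsto (fun n => (c n).2) atTop (𝓝 c₀.2) := (continuous_snd.tendsto c₀).comp hlim
  have eJ : Tendsto (fun n => √((c n).1 ^ 2 + (c n).2 ^ 2)) atTop
      (𝓝 (√(c₀.1 ^ 2 + c₀.2 ^ 2))) := ((e1.pow 2).add (e2.pow 2)).sqrt
  have hA : Tendsto (fun n => actW L (Veff f h (c n).1 (c n).2) ((fun _ : ℝ × ℝ => s₀) (c n))) atTop
      (𝓝 (m + 2 * π * (R - √(c₀.1 ^ 2 + c₀.2 ^ 2)))) := by
    have e := hD.add ((((tendsto_const_nhds (x := R)).sub eJ).const_mul (2 * π)))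
    refine e.congr fun n => ?_
    unfold Dd
    ring
  have h01 : 0 ≤ c₀.1 := hc₀.1.1
  have h02 : 0 ≤ c₀.2 := hc₀.1.2
  have hsum : √(c₀.1 ^ 2 + c₀.2 ^ 2) ≤ R :=
    le_of_tendsto eJ (Eventually.of_forall fun n => (hcT n).2.2.le)
  -- the circle
  have hsum' : √(c₀.1 ^ 2 + c₀.2 ^ 2) < R := by
    rcases lt_or_eq_of_le hsum with hh | hh
    · exact hh
    exfalso
    have := ge_of_tendsto hA (Eventually.of_forall fun n =>
      actW_nonneg L (Veff f h (c n).1 (c n).2) _)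
    rw [hh] at this
    simp at this
    linarith
  rcases eq_or_lt_of_le h01 with h01' | h01'
  · have h10 : c₀.1 = 0 := h01'.symm
    exfalso
    rcases eq_or_lt_of_le h02 with h02' | h02'
    · -- the origin
      have h20 : c₀.2 = 0 := h02'.symm
      have key := LS.lsc_act (s := fun _ => s₀) hP hlim hA (p := 0) (q := L) (x' := s₀) (y' := s₀)
        le_rfl le_rfl (fun r _ => by rw [h10, h20]; unfold Veff; simp) hs0 le_rfl hsL
        (Eventually.of_forall fun n => ⟨le_rfl, le_rfl⟩)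
      have hE0' := hEf 0 le_rfl hR.le
      rw [h10, h20] at key
      unfold Rot.actA at hE0'
      unfold Veff at key
      simp only [zero_div, ne_eq, OfNat.ofNat_ne_zero, not_false_eq_true, zero_pow, add_zero,
        sub_zero, Real.sqrt_zero] at key hE0'
      linarith
    · have hJ : √(c₀.1 ^ 2 + c₀.2 ^ 2) = c₀.2 := by
        rw [h10]
        simp only [ne_eq, OfNat.ofNat_ne_zero, not_false_eq_true, zero_pow, zero_add]
        exact Real.sqrt_sq h02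
      rw [hJ] at hsum'
      obtain ⟨p, q, hp, hps, hsq, hq, hlt, hE0'⟩ := edge_int hf.ph w₂ hS₂ hs0 hsL hhs h02' hsum'
        (hEh _ h02 hsum'.le)
      have e : (fun r => √(1 - (c₀.2 / h r) ^ 2)) = fun r => √(1 - Veff f h c₀.1 c₀.2 r) := by
        funext r; unfold Veff; rw [h10]; simp
      have key := LS.lsc_act (s := fun _ => s₀) hP hlim hA (p := p) (q := q) (x' := s₀) (y' := s₀)
        hp.le hq.le (fun r hr => by
          have := hlt r hr
          unfold Veff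
          rw [h10]
          simpa using this) hps le_rfl hsq
        (Eventually.of_forall fun n => ⟨le_rfl, le_rfl⟩)
      rw [e] at hE0'
      rw [hJ] at key
      linarith
  · rcases eq_or_lt_of_le h02 with h02' | h02'
    · exfalso
      have h20 : c₀.2 = 0 := h02'.symm
      have hJ : √(c₀.1 ^ 2 + c₀.2 ^ 2) = c₀.1 := by
        rw [h20]
        simp only [ne_eq, OfNat.ofNat_ne_zero, not_false_eq_true, zero_pow, add_zero]
        exact Real.sqrt_sq h01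
      rw [hJ] at hsum'
      obtain ⟨p, q, hp, hps, hsq, hq, hlt, hE0'⟩ := edge_int hf.pf w₁ hS₁ hs0 hsL hfs h01' hsum'
        (hEf _ h01 hsum'.le)
      have e : (fun r => √(1 - (c₀.1 / f r) ^ 2)) = fun r => √(1 - Veff f h c₀.1 c₀.2 r) := by
        funext r; unfold Veff; rw [h20]; simp
      have key := LS.lsc_act (s := fun _ => s₀) hP hlim hA (p := p) (q := q) (x' := s₀) (y' := s₀)
        hp.le hq.le (fun r hr => by
          have := hlt r hr
          unfold Veff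
          rw [h20]
          simpa using this) hps le_rfl hsq
        (Eventually.of_forall fun n => ⟨le_rfl, le_rfl⟩)
      rw [e] at hE0'
      rw [hJ] at key
      linarith
    · -- an interior point: the minimum
      have hc₀T : c₀ ∈ RegD R := ⟨h01', h02', hsum'⟩
      obtain ⟨p, q, hp, hps, hsq, hq, -, -, hw, hin⟩ := WS.well_spec hP h01' h02' hs0 hsL
        (veff_lt hR hfs hhs hsum')
      have key := LS.lsc_act (s := fun _ => s₀) hP hlim hA (p := p) (q := q) (x' := s₀) (y' := s₀)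
        hp.le hq.le hin hps le_rfl hsq (Eventually.of_forall fun n => ⟨le_rfl, le_rfl⟩)
      have hle : Dd L R f h s₀ c₀ ≤ m := by
        unfold Dd actW
        rw [hw]
        linarith
      exact ⟨c₀, hc₀T, hle.trans_lt hmneg, fun c' hc' => hle.trans (csInf_le hbdd ⟨c', hc', rfl⟩)⟩

end H804US.Mn
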