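import Pool.Agent.H804.US.GP
import Pool.Agent.H804.US.Lift
import Pool.Graph.R_seed8.H206R2.Rot.TA
import Pool.Graph.R_seed8.H206R2.Rot2.Edge

/-!
# Critical circles, and a level above `R` for both profiles
-/

open Real Set MeasureTheory Filter Topology
open scoped ContDiff
open Pool.Agent.H206R2.Rot2 (Veff well actW)
open Pool.Agent.H206R2
open H738CP

namespace H804US.St

/-- A closed geodesic in the parallel over a point where the profiles agree and their derivatives have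
opposite signs. -/
theorem mixed {L : ℝ} {f h : ℝ → ℝ} (hf : IsProfileUS L f h) {n : ℕ} (hn : 2 ≤ n) {r₀ : ℝ}
    (h0 : 0 < r₀) (hL : r₀ < L) (he : f r₀ = h r₀) (hd : deriv f r₀ * deriv h r₀ < 0) :
    ∃ γ : ℝ → EuclideanSpace ℂ (Fin n) × ℝ, IsGeodesicUS L f h 1 γ ∧
      ∀ t, γ (t + 2 * π * f r₀) = γ t := by
  have hF : 0 < f r₀ := hf.pf.fpos r₀ h0 hL
  set ρ := f r₀ with hρ
  set x := deriv f r₀ with hx
  set y := deriv h r₀ with hy
  have hyx : y - x ≠ 0 := by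
    intro h
    have : y = x := by linarith
    rw [this] at hd
    nlinarith [mul_self_nonneg x]
  obtain ⟨α, β, hα, hβ, hab, hz⟩ : ∃ α β : ℝ, 0 < α ∧ 0 < β ∧ α + β = 1 ∧ α * x + β * y = 0 := by
    refine ⟨y / (y - x), -x / (y - x), ?_, ?_, ?_, ?_⟩
    · have h1 : y / (y - x) = (y ^ 2 - x * y) / (y - x) ^ 2 := by
        field_simp
      rw [h1]
      have : 0 < (y - x) ^ 2 := by positivity
      exact div_pos (by nlinarith [sq_nonneg y]) this
    · have h1 : -x / (y - x) = (x ^ 2 - x * y) / (y - x) ^ 2 := by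
        field_simp
        ring
      rw [h1]
      have : 0 < (y - x) ^ 2 := by positivity
      exact div_pos (by nlinarith [sq_nonneg x]) this
    · field_simp
      ring
    · field_simp
      ring
  have hα2 := Real.sq_sqrt hα.le
  have hβ2 := Real.sq_sqrt hβ.le
  have hα0 := Real.sqrt_pos.2 hα
  have hβ0 := Real.sqrt_pos.2 hβ
  set a := √α with ha
  set b := √β with hb
  have hJ : ρ = √((ρ * a) ^ 2 + (ρ * b) ^ 2) := by
    have e : (ρ * a) ^ 2 + (ρ * b) ^ 2 = ρ ^ 2 := by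
      rw [mul_pow, mul_pow, hα2, hβ2, ← mul_add, hab, mul_one]
    rw [e, Real.sqrt_sq hF.le]
  have hF0 : ρ ≠ 0 := hF.ne'
  have hθ : ∀ c t : ℝ, HasDerivAt (fun t : ℝ => t * c) c t := fun c t => by
    simpa using (hasDerivAt_id t).mul_const c
  refine GP.geodesic_of_planarUS hf hn (r := fun _ => r₀) (θ₁ := fun t => t * (1 / ρ))
    (θ₂ := fun t => t * (-1 / ρ)) (P := ρ * a) (Q := ρ * b) (J := ρ) (T := 2 * π * ρ)
    (by positivity) (by positivity) hJ
    contDiff_const (contDiff_id.mul contDiff_const) (contDiff_id.mul contDiff_const)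
    (fun _ => ⟨h0, hL⟩) ?_ ?_ ?_ ?_ (fun _ => rfl) ?_ (Or.inr ?_)
  · intro t
    have e1 : deriv (deriv (fun _ : ℝ => r₀)) t = 0 := by simp
    rw [e1]
    simp only [← he, ← hρ, ← hx, ← hy]
    have e2 : ρ * x * (ρ * a / ρ ^ 2) ^ 2 + ρ * y * (ρ * b / ρ ^ 2) ^ 2 =
        (a ^ 2 * x + b ^ 2 * y) / ρ := by
      field_simp
    rw [e2, hα2, hβ2, hz, zero_div]
  · intro t
    simp only [← he, ← hρ]
    rw [(hθ _ t).deriv]
    field_simp
    ring
  · intro t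
    simp only [← he, ← hρ]
    rw [(hθ _ t).deriv]
    field_simp
    ring
  · intro t
    have e1 : deriv (fun _ : ℝ => r₀) t = 0 := by simp
    rw [e1]
    unfold Veff
    simp only [← he, ← hρ]
    have e2 : (0 : ℝ) ^ 2 + ((ρ * a / ρ) ^ 2 + (ρ * b / ρ) ^ 2) = a ^ 2 + b ^ 2 := by
      field_simp
      ring
    rw [e2, hα2, hβ2, hab]
  · intro t
    show (t + 2 * π * ρ) * (1 / ρ) = t * (1 / ρ) + 2 * π
    field_simp
  · intro t
    show (t + 2 * π * ρ) * (-1 / ρ) = t * (-1 / ρ) - 2 * π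
    field_simp
    ring

/-- The level sets of a profile below the wall height are intervals. -/
theorem wall_int {L : ℝ} {f : ℝ → ℝ} (hf : Rot.IsProfile L f) {S a b : ℝ}
    (hw : Rot.Wall L f S a b) {c : ℝ} (hc0 : 0 < c) (hcS : c < S) :
    ∃ p q, 0 < p ∧ p < q ∧ q < L ∧ (∀ r ∈ Ioo p q, c < f r) ∧
      ∀ r ∈ Ioo 0 L, r ∉ Ioo p q → f r ≤ c := by
  have hfc : Continuous f := hf.smooth.continuous
  have hf0 : f 0 = 0 := by
    have := hf.odd_zero 0
    simp only [neg_zero] at this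
    linarith
  have hfL : f L = 0 := by
    have := hf.odd_L 0
    simp only [add_zero, sub_zero] at this
    linarith
  have hmono : StrictMonoOn f (Icc 0 a) := by
    refine strictMonoOn_of_deriv_pos (convex_Icc 0 a) hfc.continuousOn ?_
    intro r hr
    rw [interior_Icc] at hr
    exact hw.inc r hr.1.le hr.2.le
  have hanti : StrictAntiOn f (Icc b L) := by
    refine strictAntiOn_of_deriv_neg (convex_Icc b L) hfc.continuousOn ?_
    intro r hr
    rw [interior_Icc] at hr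
    exact hw.dec r hr.1.le hr.2.le
  have hfa := hw.fa
  have hfb := hw.fb
  have ha := hw.apos
  have hab := hw.ab
  have hbL := hw.bL
  obtain ⟨x₀, hx₀, hx₀t⟩ : c ∈ f '' Icc 0 a :=
    intermediate_value_Icc ha.le hfc.continuousOn ⟨by rw [hf0]; exact hc0.le, by linarith⟩
  have hxa : x₀ < a := by
    rcases eq_or_lt_of_le hx₀.2 with h | h
    · rw [h] at hx₀t; linarith
    · exact h
  have hx0 : 0 < x₀ := by
    rcases eq_or_lt_of_le hx₀.1 with h | h
    · rw [← h, hf0] at hx₀t; linarith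
    · exact h
  obtain ⟨y₀, hy₀, hy₀t⟩ : c ∈ f '' Icc b L :=
    intermediate_value_Icc' hbL.le hfc.continuousOn ⟨by rw [hfL]; exact hc0.le, by linarith⟩
  have hby : b < y₀ := by
    rcases eq_or_lt_of_le hy₀.1 with h | h
    · rw [← h] at hy₀t; linarith
    · exact h
  have hyL : y₀ < L := by
    rcases eq_or_lt_of_le hy₀.2 with h | h
    · rw [h, hfL] at hy₀t; linarith
    · exact h
  refine ⟨x₀, y₀, hx0, by linarith, hyL, ?_, ?_⟩
  · intro r hr
    rcases le_total r a with hra | hra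
    · rw [← hx₀t]
      exact hmono hx₀ ⟨hx0.le.trans hr.1.le, hra⟩ hr.1
    rcases le_total r b with hrb | hrb
    · have := hw.mid r hra hrb
      linarith
    · rw [← hy₀t]
      exact hanti ⟨hrb, hr.2.le.trans hyL.le⟩ hy₀ hr.2
  · intro r hr hr'
    rcases le_or_gt r x₀ with hr1 | hr1
    · rw [← hx₀t]
      exact hmono.monotoneOn ⟨hr.1.le, hr1.trans hxa.le⟩ hx₀ hr1
    · have hr1' : y₀ ≤ r := by
        by_contra hcon
        exact hr' ⟨hr1, not_le.mp hcon⟩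
      rw [← hy₀t]
      exact hanti.antitoneOn hy₀ ⟨hy₀.1.trans hr1', hr.2.le⟩ hr1'

/-- Two profiles with walls above `R`, the first plateau to the left: either a common point above `R`, or
the profiles cross at a level `≤ R` with derivatives of opposite signs. -/
theorem gap {L : ℝ} {f h : ℝ → ℝ} (hf : Rot.IsProfile L f) (hh : Rot.IsProfile L h) {R S₁ a₁ b₁ S₂ a₂ b₂ : ℝ}
    (h1 : Rot.Wall L f S₁ a₁ b₁) (h2 : Rot.Wall L h S₂ a₂ b₂) (hS₁ : R < S₁) (hS₂ : R < S₂)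
    (hba : b₁ < a₂) :
    ∃ r, 0 < r ∧ r < L ∧ ((R < f r ∧ R < h r) ∨ (f r = h r ∧ deriv f r * deriv h r < 0)) := by
  have hfc : Continuous f := hf.smooth.continuous
  have hhc : Continuous h := hh.smooth.continuous
  have hb₁ : 0 < b₁ := h1.apos.trans_le h1.ab
  have ha₂ : a₂ < L := h2.ab.trans_lt h2.bL
  have e1 := h1.fb
  have e2 := h2.fa
  by_cases c1 : f b₁ ≤ h b₁
  · exact ⟨b₁, hb₁, h1.bL, Or.inl ⟨by linarith, by linarith⟩⟩
  by_cases c2 : h a₂ ≤ f a₂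
  · exact ⟨a₂, h2.apos, ha₂, Or.inl ⟨by linarith, by linarith⟩⟩
  push Not at c1 c2
  obtain ⟨r, hr, hr0⟩ : (0 : ℝ) ∈ (fun r => h r - f r) '' Icc b₁ a₂ :=
    intermediate_value_Icc hba.le (hhc.sub hfc).continuousOn ⟨by
        show h b₁ - f b₁ ≤ 0
        linarith, by
        show 0 ≤ h a₂ - f a₂
        linarith⟩
  simp only at hr0
  have d1 := h1.dec r hr.1 (hr.2.trans ha₂.le)
  have d2 := h2.inc r (hb₁.le.trans hr.1) hr.2
  exact ⟨r, hb₁.trans_le hr.1, hr.2.trans_lt ha₂, Or.inr ⟨by linarith, mul_neg_of_neg_of_pos d1 d2⟩⟩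

/-- The structure of the profiles when there is no short periodic geodesic. -/
theorem structure_US {L : ℝ} {f h : ℝ → ℝ} (hf : IsProfileUS L f h) {n : ℕ} (hn : 2 ≤ n) {R : ℝ}
    (hR : 0 < R)
    (hno : ∀ (γ : ℝ → EuclideanSpace ℂ (Fin n) × ℝ) (T : ℝ), 0 < T →
      IsGeodesicUS L f h 1 γ → (∀ t, γ (t + T) = γ t) → 2 * π * R < T) :
    ∃ S₁ a₁ b₁ S₂ a₂ b₂ s₀ : ℝ, R < S₁ ∧ R < S₂ ∧ Rot.Wall L f S₁ a₁ b₁ ∧ Rot.Wall L h S₂ a₂ b₂ ∧
      0 < s₀ ∧ s₀ < L ∧ R < f s₀ ∧ R < h s₀ := by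
  have hpi := Real.pi_pos
  have hcf : ∀ r, 0 < r → r < L → deriv f r = 0 → R < f r := by
    intro r h0 hrL hd
    obtain ⟨γ, h1, h2⟩ := Rot.TG.parallel hf.pf (n := 2) le_rfl h0 hrL hd
    obtain ⟨γ', h3, h4⟩ := Lift.lift_line hf hn h1
    have hfr := hf.pf.fpos r h0 hrL
    have := hno γ' (2 * π * f r) (by positivity) h3 (h4 _ h2)
    exact lt_of_mul_lt_mul_left this (by positivity)
  have hch : ∀ r, 0 < r → r < L → deriv h r = 0 → R < h r := by
    intro r h0 hrL hd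
    obtain ⟨γ, h1, h2⟩ := Rot.TG.parallel hf.ph (n := 2) le_rfl h0 hrL hd
    obtain ⟨γ', h3, h4⟩ := Lift.lift_real hf hn h1
    have hfr := hf.ph.fpos r h0 hrL
    have := hno γ' (2 * π * h r) (by positivity) h3 (h4 _ h2)
    exact lt_of_mul_lt_mul_left this (by positivity)
  obtain ⟨S₁, a₁, b₁, hS₁, w₁⟩ := Rot.TA.exists_wall hf.pf hR hcf
  obtain ⟨S₂, a₂, b₂, hS₂, w₂⟩ := Rot.TA.exists_wall hf.ph hR hch
  suffices hs : ∃ s₀, 0 < s₀ ∧ s₀ < L ∧ R < f s₀ ∧ R < h s₀ by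
    obtain ⟨s₀, k1, k2, k3, k4⟩ := hs
    exact ⟨S₁, a₁, b₁, S₂, a₂, b₂, s₀, hS₁, hS₂, w₁, w₂, k1, k2, k3, k4⟩
  have hcross : ∀ r, 0 < r → r < L → f r = h r → deriv f r * deriv h r < 0 →
      R < f r ∧ R < h r := by
    intro r h0 hrL he hd
    obtain ⟨γ, h1, h2⟩ := mixed hf hn h0 hrL he hd
    have hfr := hf.pf.fpos r h0 hrL
    have := hno γ (2 * π * f r) (by positivity) h1 h2
    have h3 : R < f r := lt_of_mul_lt_mul_left this (by positivity)
    exact ⟨h3, he ▸ h3⟩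
  rcases lt_or_ge b₁ a₂ with hc | hc
  · obtain ⟨r, k1, k2, k3⟩ := gap hf.pf hf.ph w₁ w₂ hS₁ hS₂ hc
    rcases k3 with k3 | k3
    · exact ⟨r, k1, k2, k3.1, k3.2⟩
    · obtain ⟨k4, k5⟩ := hcross r k1 k2 k3.1 k3.2
      exact ⟨r, k1, k2, k4, k5⟩
  rcases lt_or_ge b₂ a₁ with hc' | hc'
  · obtain ⟨r, k1, k2, k3⟩ := gap hf.ph hf.pf w₂ w₁ hS₂ hS₁ hc'
    rcases k3 with k3 | k3
    · exact ⟨r, k1, k2, k3.2, k3.1⟩
    · obtain ⟨k4, k5⟩ := hcross r k1 k2 k3.1.symm (by rw [mul_comm]; exact k3.2)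
      exact ⟨r, k1, k2, k4, k5⟩
  refine ⟨max a₁ a₂, lt_max_of_lt_left w₁.apos, ?_, ?_, ?_⟩
  · exact max_lt (w₁.ab.trans_lt w₁.bL) (w₂.ab.trans_lt w₂.bL)
  · exact hS₁.trans_le (w₁.mid _ (le_max_left _ _) (max_le w₁.ab hc))
  · exact hS₂.trans_le (w₂.mid _ (le_max_right _ _) (max_le hc' w₂.ab))

end H804US.St
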